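import Mathlib

set_option autoImplicit false

namespace Pool.Agent.Helper47.Span

open Complex Set Filter Topology

/-- The additivity of the principal logarithm on the right half plane. -/
theorem log_mul_of_re_pos {a b : ℂ} (ha : 0 < a.re) (hb : 0 < b.re) :
    Complex.log (a * b) = Complex.log a + Complex.log b := by
  have ha0 : a ≠ 0 := by
    rintro rfl
    simp at ha
  have hb0 : b ≠ 0 := by
    rintro rfl
    simp at hb
  apply Complex.log_mul ha0 hb0
  have h1 : |a.arg| < Real.pi / 2 := by
    rw [Complex.abs_arg_lt_pi_div_two_iff]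
    exact Or.inl ha
  have h2 : |b.arg| < Real.pi / 2 := by
    rw [Complex.abs_arg_lt_pi_div_two_iff]
    exact Or.inl hb
  rw [abs_lt] at h1 h2
  constructor
  · linarith [h1.1, h2.1]
  · linarith [h1.2, h2.2]

section Lift

variable {M Y I : Type*} (r : I) (par : I → I) (dep : I → ℕ)
  (hdep : ∀ i, i ≠ r → dep (par i) < dep i)
  (F : M × Y → ℂ) (b : I → M) (g₀ : Y → ℂ)

open Classical in
/-- the logarithm at the base points, by recursion on the depth -/
noncomputable def baseLog (hdep : ∀ i, i ≠ r → dep (par i) < dep i) (i : I) : Y → ℂ :=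
  if h : i = r then g₀ else
    fun y => baseLog hdep (par i) y + Complex.log (F (b i, y) / F (b (par i), y))
termination_by dep i
decreasing_by exact hdep i h

theorem baseLog_root : baseLog r par dep F b g₀ hdep r = g₀ := by
  rw [baseLog]
  simp

theorem baseLog_of_ne {i : I} (h : i ≠ r) (y : Y) :
    baseLog r par dep F b g₀ hdep i y =
      baseLog r par dep F b g₀ hdep (par i) y + Complex.log (F (b i, y) / F (b (par i), y)) := by
  rw [baseLog]
  simp [h]

theorem lift_of_rooted [TopologicalSpace M] [TopologicalSpace Y]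
    (U : I → Set M) (hU : ∀ i, IsOpen (U i)) (hcov : ∀ x, ∃ i, x ∈ U i)
    (hne : ∀ i, (U i).Nonempty)
    (hdep : ∀ i, i ≠ r → dep (par i) < dep i)
    (hmeet : ∀ i j, i ≠ j → (U i ∩ U j).Nonempty →
      (i ≠ r ∧ par i = j) ∨ (j ≠ r ∧ par j = i))
    (hF : Continuous F) (hF0 : ∀ p, F p ≠ 0)
    (hself : ∀ i, ∀ x ∈ U i, ∀ x' ∈ U i, ∀ y, 0 < (F (x, y) / F (x', y)).re)
    (hpar : ∀ i, i ≠ r → ∀ x ∈ U i, ∀ x' ∈ U (par i), ∀ y, 0 < (F (x, y) / F (x', y)).re)
    (x₀ : M) (hx₀ : x₀ ∈ U r) (hg₀ : Continuous g₀)
    (hexp : ∀ y, Complex.exp (g₀ y) = F (x₀, y)) :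
    ∃ g : M × Y → ℂ, Continuous g ∧ ∀ p, Complex.exp (g p) = F p := by
  classical
  choose b₀ hb₀ using hne
  set b : I → M := Function.update b₀ r x₀ with hb
  have hbU : ∀ i, b i ∈ U i := by
    intro i
    by_cases h : i = r
    · subst h
      simp [hb, hx₀]
    · simp [hb, h, hb₀]
  have hbr : b r = x₀ := by simp [hb]
  let L : I → Y → ℂ := baseLog r par dep F b g₀ hdep
  have hLr : L r = g₀ := baseLog_root r par dep hdep F b g₀
  have hLi : ∀ i, i ≠ r → ∀ y, L i y = L (par i) y + Complex.log (F (b i, y) / F (b (par i), y)) :=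
    fun i h y => baseLog_of_ne r par dep hdep F b g₀ h y
  -- exp of L
  have hLexp : ∀ n : ℕ, ∀ i, dep i ≤ n → ∀ y, Complex.exp (L i y) = F (b i, y) := by
    intro n
    induction n with
    | zero =>
      intro i hi y
      by_cases h : i = r
      · subst h
        rw [hLr, hbr]
        exact hexp y
      · have := hdep i h
        omega
    | succ n ih =>
      intro i hi y
      by_cases h : i = r
      · subst h
        rw [hLr, hbr]
        exact hexp y
      · have h1 := hdep i h
        rw [hLi i h, Complex.exp_add, ih (par i) (by omega),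
          Complex.exp_log (div_ne_zero (hF0 _) (hF0 _))]
        field_simp [hF0]
  have hLexp' : ∀ i y, Complex.exp (L i y) = F (b i, y) := fun i y => hLexp (dep i) i le_rfl y
  have hsec : ∀ x : M, Continuous fun y : Y => F (x, y) := fun x =>
    hF.comp (Continuous.prodMk continuous_const continuous_id)
  have hLcont : ∀ n : ℕ, ∀ i, dep i ≤ n → Continuous (L i) := by
    intro n
    induction n with
    | zero =>
      intro i hi
      by_cases h : i = r
      · subst h
        rw [hLr]
        exact hg₀
      · have := hdep i h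
        omega
    | succ n ih =>
      intro i hi
      by_cases h : i = r
      · subst h
        rw [hLr]
        exact hg₀
      · have h1 := hdep i h
        have h2 : L i = fun y => L (par i) y + Complex.log (F (b i, y) / F (b (par i), y)) := by
          funext y
          exact hLi i h y
        rw [h2]
        refine (ih (par i) (by omega)).add ?_
        refine Continuous.clog ?_ ?_
        · exact (hsec _).div (hsec _) (fun y => hF0 _)
        · intro y
          rw [Complex.mem_slitPlane_iff]
          exact Or.inl (hpar i h _ (hbU i) _ (hbU _) y)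
  have hLcont' : ∀ i, Continuous (L i) := fun i => hLcont (dep i) i le_rfl
  -- local formula
  let G : I → M × Y → ℂ := fun i p => L i p.2 + Complex.log (F p / F (b i, p.2))
  have hcons1 : ∀ i, i ≠ r → ∀ x ∈ U i ∩ U (par i), ∀ y, G i (x, y) = G (par i) (x, y) := by
    intro i hi x hx y
    show L i y + Complex.log (F (x, y) / F (b i, y)) =
      L (par i) y + Complex.log (F (x, y) / F (b (par i), y))
    rw [hLi i hi, add_assoc, ← log_mul_of_re_pos (hpar i hi _ (hbU i) _ (hbU _) y)
      (hself i _ hx.1 _ (hbU i) y)]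
    congr 2
    have e1 := hF0 (b i, y)
    have e2 := hF0 (b (par i), y)
    field_simp
  have hcons : ∀ i j x, x ∈ U i → x ∈ U j → ∀ y, G i (x, y) = G j (x, y) := by
    intro i j x hi hj y
    by_cases h : i = j
    · subst h; rfl
    · rcases hmeet i j h ⟨x, hi, hj⟩ with ⟨h1, h2⟩ | ⟨h1, h2⟩
      · have := hcons1 i h1 x ⟨hi, by rw [h2]; exact hj⟩ y
        rw [this, h2]
      · have := hcons1 j h1 x ⟨hj, by rw [h2]; exact hi⟩ y
        rw [this, h2]
  choose idx hidx using hcov
  let g : M × Y → ℂ := fun p => G (idx p.1) p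
  have hg : ∀ i (p : M × Y), p.1 ∈ U i → g p = G i p := by
    rintro i ⟨x, y⟩ hx
    exact hcons _ _ x (hidx x) hx y
  refine ⟨g, ?_, ?_⟩
  · rw [continuous_iff_continuousAt]
    intro p
    have hopen : IsOpen ((Prod.fst : M × Y → M) ⁻¹' U (idx p.1)) :=
      (hU _).preimage continuous_fst
    have hev : g =ᶠ[𝓝 p] G (idx p.1) := by
      filter_upwards [hopen.mem_nhds (hidx p.1)] with q hq
      exact hg _ q hq
    refine ContinuousAt.congr ?_ hev.symm
    refine ContinuousAt.add ((hLcont' _).continuousAt.comp continuousAt_snd) ?_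
    refine ContinuousAt.clog ?_ ?_
    · refine ContinuousAt.div hF.continuousAt ?_ (hF0 _)
      exact ((hsec (b (idx p.1))).comp continuous_snd).continuousAt
    · rw [Complex.mem_slitPlane_iff]
      left
      exact hself (idx p.1) p.1 (hidx p.1) _ (hbU _) p.2
  · rintro ⟨x, y⟩
    show Complex.exp (L (idx x) y + Complex.log (F (x, y) / F (b (idx x), y))) = F (x, y)
    rw [Complex.exp_add, hLexp', Complex.exp_log (div_ne_zero (hF0 _) (hF0 _))]
    have e1 := hF0 (b (idx x), y)
    field_simp

end Lift

end Pool.Agent.Helper47.Span
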