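import Mathlib
import Pool.Agent.Lib.MP_da225d_gt.Helper47Lift

set_option autoImplicit false

namespace Pool.Agent.Helper47.Span

open Complex Set Filter Topology

/-- Every tree can be rooted at a given vertex. -/
theorem exists_rooting {V : Type*} {G : SimpleGraph V} (hG : G.IsTree) (r : V) :
    ∃ (par : V → V) (dep : V → ℕ), (∀ v, v ≠ r → G.Adj v (par v)) ∧
      (∀ v, v ≠ r → dep (par v) < dep v) ∧
      (∀ u v, G.Adj u v → (u ≠ r ∧ par u = v) ∨ (v ≠ r ∧ par v = u)) := by
  classical
  have hex : ∀ v, ∃ p : G.Walk r v, p.IsPath ∧ p.length = G.dist r v := fun v =>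
    (hG.connected r v).exists_path_of_dist
  choose p hp hlen using hex
  have hkey : ∀ u v, G.Adj u v → G.dist r u = G.dist r v + 1 → u ≠ r ∧ (p u).penultimate = v := by
    intro u v huv hd
    have hur : u ≠ r := by
      rintro rfl
      simp at hd
    refine ⟨hur, ?_⟩
    have hu : u ∉ (p v).support := by
      intro hmem
      have h1 : G.dist r u ≤ ((p v).takeUntil u hmem).length := SimpleGraph.dist_le _
      have h2 := (p v).length_takeUntil_le hmem
      rw [hlen v] at h2
      omega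
    have hv : v ∈ (p u).support :=
      hG.isAcyclic.mem_support_of_ne_mem_support_of_adj_of_isPath (hp u) (hp v) huv hu
    exact (hG.isAcyclic.eq_penultimate_of_adj_end (hp u) huv hv).symm
  refine ⟨fun v => (p v).penultimate, fun v => G.dist r v, ?_, ?_, ?_⟩
  · intro v hv
    have hnil : ¬ (p v).Nil := by
      intro h
      exact hv h.eq.symm
    exact ((p v).adj_penultimate hnil).symm
  · intro v hv
    have hnil : ¬ (p v).Nil := by
      intro h
      exact hv h.eq.symm
    have h1 : G.dist r (p v).penultimate ≤ (p v).dropLast.length := SimpleGraph.dist_le _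
    have h2 : (p v).dropLast.length + 1 = (p v).length := by
      have := (p v).length_dropLast_add_one hnil
      exact this
    have h3 := hlen v
    show G.dist r (p v).penultimate < G.dist r v
    omega
  · intro u v huv
    rcases hG.dist_eq_dist_add_one_of_adj r huv with h | h
    · exact Or.inl (hkey u v huv h)
    · exact Or.inr (hkey v u huv.symm h)

/-- Arbitrarily fine rooted open covers whose overlaps are parent-child overlaps. -/
def RootCov (M : Type*) [MetricSpace M] : Prop :=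
  ∀ ε : ℝ, 0 < ε → ∃ (I : Type) (r : I) (par : I → I) (dep : I → ℕ) (U : I → Set M),
    (∀ i, IsOpen (U i)) ∧ (∀ x, ∃ i, x ∈ U i) ∧ (∀ i, (U i).Nonempty) ∧
    (∀ i, i ≠ r → dep (par i) < dep i) ∧
    (∀ i j, i ≠ j → (U i ∩ U j).Nonempty → (i ≠ r ∧ par i = j) ∨ (j ≠ r ∧ par j = i)) ∧
    (∀ i, ∀ x ∈ U i, ∀ x' ∈ U i, dist x x' < ε) ∧
    (∀ i, i ≠ r → ∀ x ∈ U i, ∀ x' ∈ U (par i), dist x x' < ε)

theorem re_div_pos_of_norm_sub_lt {a b : ℂ} {c : ℝ} (hb : c ≤ ‖b‖) (hc : 0 < c)
    (h : ‖a - b‖ < c) : 0 < (a / b).re := by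
  have hb0 : b ≠ 0 := by
    rintro rfl
    simp at hb
    linarith
  have h1 : a / b - 1 = (a - b) / b := by
    field_simp
  have h2 : ‖a / b - 1‖ < 1 := by
    rw [h1, norm_div, div_lt_one (lt_of_lt_of_le hc hb)]
    linarith
  have h3 : |(a / b - 1).re| ≤ ‖a / b - 1‖ := Complex.abs_re_le_norm _
  have h4 := (abs_le.mp h3).1
  simp at h4
  linarith

/-- Every nonvanishing complex function on `M × M` has a continuous logarithm. -/
theorem exists_log_of_rootCov {M : Type*} [MetricSpace M] [CompactSpace M] [Nonempty M]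
    (h : RootCov M) (F : M × M → ℂ) (hF : Continuous F) (hF0 : ∀ p, F p ≠ 0) :
    ∃ g : M × M → ℂ, Continuous g ∧ ∀ p, Complex.exp (g p) = F p := by
  -- lower bound
  obtain ⟨p₀, -, hp₀⟩ := isCompact_univ.exists_isMinOn (univ_nonempty (α := M × M))
    (hF.norm.continuousOn)
  have hc : 0 < ‖F p₀‖ := norm_pos_iff.mpr (hF0 p₀)
  have hmin : ∀ p, ‖F p₀‖ ≤ ‖F p‖ := fun p => hp₀ (mem_univ p)
  have huc : UniformContinuous F := CompactSpace.uniformContinuous_of_continuous hF
  obtain ⟨δ, hδ, hδF⟩ := Metric.uniformContinuous_iff.mp huc _ hc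
  obtain ⟨I, r, par, dep, U, hU, hcov, hne, hdep, hmeet, hsm, hsmp⟩ := h δ hδ
  have hratio : ∀ x x' y : M, dist x x' < δ → 0 < (F (x, y) / F (x', y)).re := by
    intro x x' y hxx
    apply re_div_pos_of_norm_sub_lt (hmin _) hc
    rw [← dist_eq_norm]
    apply hδF
    rw [Prod.dist_eq]
    simp [hxx, hδ]
  have hratio' : ∀ x x' y : M, dist x x' < δ → 0 < (F (y, x) / F (y, x')).re := by
    intro x x' y hxx
    apply re_div_pos_of_norm_sub_lt (hmin _) hc
    rw [← dist_eq_norm]
    apply hδF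
    rw [Prod.dist_eq]
    simp [hxx, hδ]
  obtain ⟨x₀, hx₀⟩ := hne r
  -- first: the slice
  let F₁ : M × Unit → ℂ := fun p => F (x₀, p.1)
  have hF₁ : Continuous F₁ := hF.comp (Continuous.prodMk continuous_const continuous_fst)
  obtain ⟨g₁, hg₁, hg₁e⟩ := lift_of_rooted r par dep F₁ (fun _ => Complex.log (F (x₀, x₀))) U hU hcov
    hne hdep hmeet hF₁ (fun p => hF0 _)
    (fun i x hx x' hx' y => hratio' x x' x₀ (hsm i x hx x' hx'))
    (fun i hi x hx x' hx' y => hratio' x x' x₀ (hsmp i hi x hx x' hx'))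
    x₀ hx₀ continuous_const (fun y => Complex.exp_log (hF0 _))
  -- second
  exact lift_of_rooted r par dep F (fun y => g₁ (y, ())) U hU hcov
    hne hdep hmeet hF hF0
    (fun i x hx x' hx' y => hratio x x' y (hsm i x hx x' hx'))
    (fun i hi x hx x' hx' y => hratio x x' y (hsmp i hi x hx x' hx'))
    x₀ hx₀ (hg₁.comp (Continuous.prodMk continuous_id continuous_const)) (fun y => hg₁e (y, ()))

end Pool.Agent.Helper47.Span
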