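import Mathlib
import Pool.Agent.Lib.MP_da225d_gt.Helper47Root

set_option autoImplicit false

namespace Pool.Agent.Helper47.Span

open Set

/-- The geometric realization of a finite graph without triangles (barycentric coordinates). -/
def realization {V : Type} [Fintype V] (G : SimpleGraph V) : Set (V → ℝ) :=
  {p | (∀ v, 0 ≤ p v) ∧ ∑ v, p v = 1 ∧ ∀ u v, u ≠ v → p u ≠ 0 → p v ≠ 0 → G.Adj u v}

open Classical in
/-- The affine extension of a map of the vertices. -/
noncomputable def push {V W : Type} [Fintype W] (φ : W → V) (p : W → ℝ) : V → ℝ :=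
  fun v => ∑ w with φ w = v, p w

/-- The inverse limit of an inverse sequence of graphs with simplicial bonding maps. -/
def simplicialLimit (V : ℕ → Type) [∀ n, Fintype (V n)] (G : ∀ n, SimpleGraph (V n))
    (φ : ∀ n, V (n + 1) → V n) : Set (∀ n, V n → ℝ) :=
  {x | ∀ n, x n ∈ realization (G n) ∧ x n = push (φ n) (x (n + 1))}

open Classical in
/-- The point dividing the edge from `u` to `v` in the ratio `t : 1 - t`. -/
noncomputable def pt {V : Type} (u v : V) (t : ℝ) : V → ℝ :=
  fun w => (1 - t) * (if w = u then 1 else 0) + t * (if w = v then 1 else 0)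

theorem push_pt {V W : Type} [Fintype W] (φ : W → V) (u v : W) (t : ℝ) :
    push φ (pt u v t) = pt (φ u) (φ v) t := by
  classical
  funext w
  unfold push pt
  rw [Finset.sum_add_distrib, ← Finset.mul_sum, ← Finset.mul_sum, Finset.sum_ite_eq',
    Finset.sum_ite_eq']
  simp [eq_comm]

theorem sum_pt {V : Type} [Fintype V] (u v : V) (t : ℝ) : ∑ w, pt u v t w = 1 := by
  classical
  unfold pt
  rw [Finset.sum_add_distrib, ← Finset.mul_sum, ← Finset.mul_sum]
  simp

theorem pt_mem {V : Type} [Fintype V] {G : SimpleGraph V} {u v : V} (h : u = v ∨ G.Adj u v)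
    {t : ℝ} (h0 : 0 ≤ t) (h1 : t ≤ 1) : pt u v t ∈ realization G := by
  classical
  refine ⟨?_, sum_pt u v t, ?_⟩
  · intro w
    unfold pt
    have : 0 ≤ 1 - t := by linarith
    positivity
  · intro a b hab ha hb
    have key : ∀ c, pt u v t c ≠ 0 → c = u ∨ c = v := by
      intro c hc
      by_contra hcon
      push Not at hcon
      apply hc
      simp [pt, hcon.1, hcon.2]
    rcases h with rfl | h
    · have e1 := key a ha
      have e2 := key b hb
      exfalso
      apply hab
      rw [or_self] at e1 e2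
      rw [e1, e2]
    · rcases key a ha with rfl | rfl <;> rcases key b hb with rfl | rfl
      · exact absurd rfl hab
      · exact h
      · exact h.symm
      · exact absurd rfl hab

/-- The ℓ¹ distance. -/
def l1 {V : Type} [Fintype V] (p q : V → ℝ) : ℝ := ∑ v, |p v - q v|

theorem l1_nonneg {V : Type} [Fintype V] (p q : V → ℝ) : 0 ≤ l1 p q :=
  Finset.sum_nonneg fun _ _ => abs_nonneg _

theorem l1_push_le {V W : Type} [Fintype V] [Fintype W] (φ : W → V) (p q : W → ℝ) :
    l1 (push φ p) (push φ q) ≤ l1 p q := by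
  classical
  unfold l1 push
  calc ∑ v, |∑ w with φ w = v, p w - ∑ w with φ w = v, q w|
      ≤ ∑ v, ∑ w with φ w = v, |p w - q w| := by
        apply Finset.sum_le_sum
        intro v _
        rw [← Finset.sum_sub_distrib]
        exact Finset.abs_sum_le_sum_abs _ _
    _ = ∑ w, |p w - q w| := by
        rw [← Finset.sum_fiberwise (s := Finset.univ) (g := φ) (f := fun w => |p w - q w|)]

theorem eq_of_l1_le_zero {V : Type} [Fintype V] {p q : V → ℝ} (h : l1 p q ≤ 0) : p = q := by
  have h0 : l1 p q = 0 := le_antisymm h (l1_nonneg p q)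
  unfold l1 at h0
  rw [Finset.sum_eq_zero_iff_of_nonneg (fun _ _ => abs_nonneg _)] at h0
  funext v
  have := h0 v (Finset.mem_univ v)
  rw [abs_eq_zero, sub_eq_zero] at this
  exact this

theorem l1_pt_le {V : Type} [Fintype V] (u v : V) (s t : ℝ) :
    l1 (pt u v s) (pt u v t) ≤ 2 * |s - t| := by
  classical
  unfold l1 pt
  calc ∑ w, |((1 - s) * (if w = u then 1 else 0) + s * (if w = v then 1 else 0)) -
        ((1 - t) * (if w = u then 1 else 0) + t * (if w = v then 1 else 0))|
      ≤ ∑ w, (|s - t| * (if w = u then 1 else 0) + |s - t| * (if w = v then 1 else 0)) := by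
        apply Finset.sum_le_sum
        intro w _
        have e : ((1 - s) * (if w = u then (1 : ℝ) else 0) + s * (if w = v then 1 else 0)) -
            ((1 - t) * (if w = u then 1 else 0) + t * (if w = v then 1 else 0)) =
            (t - s) * (if w = u then 1 else 0) + (s - t) * (if w = v then 1 else 0) := by ring
        rw [e]
        refine (abs_add_le _ _).trans ?_
        rw [abs_mul, abs_mul, abs_sub_comm t s]
        apply add_le_add
        · split_ifs <;> simp
        · split_ifs <;> simp
    _ = 2 * |s - t| := by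
        rw [Finset.sum_add_distrib, ← Finset.mul_sum, ← Finset.mul_sum]
        simp
        ring

/-- Edges lift along surjective simplicial maps of trees. -/
theorem lift_edge {V W : Type} {G : SimpleGraph V} {H : SimpleGraph W} (hG : G.IsTree)
    (hH : H.IsTree) (φ : W → V) (hφ : Function.Surjective φ)
    (hadj : ∀ a b, H.Adj a b → φ a = φ b ∨ G.Adj (φ a) (φ b)) {u v : V} (huv : G.Adj u v) :
    ∃ a b, H.Adj a b ∧ φ a = u ∧ φ b = v := by
  obtain ⟨u', hu'⟩ := hφ u
  obtain ⟨v', hv'⟩ := hφ v
  have hbr := (SimpleGraph.isAcyclic_iff_forall_adj_isBridge.mp hG.isAcyclic) huv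
  rw [SimpleGraph.isBridge_iff] at hbr
  obtain ⟨p⟩ := hH.connected u' v'
  let D : Set W := {a | (G.deleteEdges {s(u, v)}).Reachable u (φ a)}
  obtain ⟨d, hd, h1, h2⟩ := p.exists_boundary_dart D
    (show (G.deleteEdges {s(u, v)}).Reachable u (φ u') by rw [hu'])
    (show ¬ (G.deleteEdges {s(u, v)}).Reachable u (φ v') by
      rw [hv']; exact hbr)
  have h1 : (G.deleteEdges {s(u, v)}).Reachable u (φ d.fst) := h1
  have h2 : ¬ (G.deleteEdges {s(u, v)}).Reachable u (φ d.snd) := h2
  have hne : φ d.fst ≠ φ d.snd := by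
    intro h
    rw [← h] at h2
    exact h2 h1
  have hGadj : G.Adj (φ d.fst) (φ d.snd) := (hadj _ _ d.adj).resolve_left hne
  by_cases he : s(φ d.fst, φ d.snd) = s(u, v)
  · rw [Sym2.eq_iff] at he
    rcases he with ⟨e1, e2⟩ | ⟨e1, e2⟩
    · exact ⟨d.fst, d.snd, d.adj, e1, e2⟩
    · rw [e1] at h1
      exact absurd h1 hbr
  · exfalso
    apply h2
    refine h1.trans (SimpleGraph.Adj.reachable ?_)
    rw [SimpleGraph.deleteEdges_adj]
    exact ⟨hGadj, by simpa using he⟩

end Pool.Agent.Helper47.Span
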