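import Mathlib
import Pool.Agent.Lib.MP_da225d_gt.Helper47Limit

set_option autoImplicit false

namespace Pool.Agent.Helper47.Span

open Set

/-- Every element of a term of an inverse sequence of surjections extends to a thread. -/
theorem exists_seq : ∀ (m : ℕ) (E : ℕ → Type) (ψ : ∀ k, E (k + 1) → E k)
    (_ : ∀ k, Function.Surjective (ψ k)) (e : E m),
    ∃ s : ∀ k, E k, (∀ k, ψ k (s (k + 1)) = s k) ∧ s m = e := by
  intro m
  induction m with
  | zero =>
    intro E ψ hψ e
    refine ⟨fun k => Nat.rec e (fun k x => (hψ k x).choose) k, ?_, rfl⟩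
    intro k
    exact (hψ k _).choose_spec
  | succ m ih =>
    intro E ψ hψ e
    obtain ⟨s', h1, h2⟩ := ih (fun k => E (k + 1)) (fun k => ψ (k + 1)) (fun k => hψ (k + 1)) e
    refine ⟨fun k => Nat.casesOn k (ψ 0 (s' 0)) s', ?_, h2⟩
    intro k
    cases k with
    | zero => rfl
    | succ k => exact h1 k

theorem push_push {U V W : Type} [Fintype V] [Fintype W] (φ : V → U) (ψ : W → V) (p : W → ℝ) :
    push φ (push ψ p) = push (φ ∘ ψ) p := by
  classical
  funext u
  unfold push
  rw [Finset.sum_comm' (t' := Finset.univ.filter fun w => φ (ψ w) = u)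
    (s' := fun w => {ψ w})]
  · simp
  · intro v w
    simp only [Finset.mem_filter, Finset.mem_univ, true_and, Finset.mem_singleton]
    constructor
    · rintro ⟨h1, h2⟩
      rw [h2]
      exact ⟨rfl, h1⟩
    · rintro ⟨h1, h2⟩
      rw [h1]
      exact ⟨h2, rfl⟩

section

variable (V : ℕ → Type) [∀ n, Fintype (V n)] (G : ∀ n, SimpleGraph (V n))
  (φ : ∀ n, V (n + 1) → V n)

/-- composite bonding maps on the vertices -/
def comp (n : ℕ) : ∀ k, V (n + k) → V n
  | 0 => id
  | k + 1 => fun u => comp n k (φ (n + k) u)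

variable {V G φ}

theorem limit_push {x : ∀ n, V n → ℝ} (hx : x ∈ simplicialLimit V G φ) (n : ℕ) :
    ∀ k, x n = push (comp V φ n k) (x (n + k)) := by
  classical
  intro k
  induction k with
  | zero =>
    funext v
    unfold push comp
    rw [Finset.sum_filter]
    simp
  | succ k ih =>
    have h1 := (hx (n + k)).2
    rw [ih, h1, push_push]
    rfl

theorem l1_mono {x y : ∀ n, V n → ℝ} (hx : x ∈ simplicialLimit V G φ)
    (hy : y ∈ simplicialLimit V G φ) (n k : ℕ) :
    l1 (x n) (y n) ≤ l1 (x (n + k)) (y (n + k)) := by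
  rw [limit_push hx n k, limit_push hy n k]
  exact l1_push_le _ _ _

/-- Every point of an edge at level `m` lifts to the limit. -/
theorem exists_limit_pt (hG : ∀ n, (G n).IsTree) (hφ : ∀ n, Function.Surjective (φ n))
    (hadj : ∀ n a b, (G (n + 1)).Adj a b → φ n a = φ n b ∨ (G n).Adj (φ n a) (φ n b))
    (m : ℕ) (u v : V m) (huv : u = v ∨ (G m).Adj u v) (t : ℝ) (h0 : 0 ≤ t) (h1 : t ≤ 1) :
    ∃ x ∈ simplicialLimit V G φ, x m = pt u v t := by
  let E : ℕ → Type := fun k => {p : V k × V k // p.1 = p.2 ∨ (G k).Adj p.1 p.2}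
  let ψ : ∀ k, E (k + 1) → E k := fun k e => ⟨(φ k e.1.1, φ k e.1.2), by
    rcases e.2 with h | h
    · left
      show φ k e.1.1 = φ k e.1.2
      rw [h]
    · exact hadj k _ _ h⟩
  have hψ : ∀ k, Function.Surjective (ψ k) := by
    rintro k ⟨⟨a, b⟩, hab⟩
    rcases hab with hab | hab
    · obtain ⟨a', ha'⟩ := hφ k a
      refine ⟨⟨(a', a'), Or.inl rfl⟩, ?_⟩
      apply Subtype.ext
      show (φ k a', φ k a') = (a, b)
      have hab : a = b := hab
      rw [ha', hab]
    · obtain ⟨a', b', h1, h2, h3⟩ := lift_edge (hG k) (hG (k + 1)) (φ k) (hφ k) (hadj k) hab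
      refine ⟨⟨(a', b'), Or.inr h1⟩, ?_⟩
      apply Subtype.ext
      show (φ k a', φ k b') = (a, b)
      rw [h2, h3]
  obtain ⟨s, hs, hsm⟩ := exists_seq m E ψ hψ ⟨(u, v), huv⟩
  refine ⟨fun k => pt (s k).1.1 (s k).1.2 t, ?_, ?_⟩
  · intro k
    refine ⟨pt_mem (s k).2 h0 h1, ?_⟩
    show pt (s k).1.1 (s k).1.2 t = push (φ k) (pt (s (k + 1)).1.1 (s (k + 1)).1.2 t)
    rw [push_pt]
    have := congrArg Subtype.val (hs k)
    have e1 : φ k (s (k + 1)).1.1 = (s k).1.1 := congrArg Prod.fst this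
    have e2 : φ k (s (k + 1)).1.2 = (s k).1.2 := congrArg Prod.snd this
    rw [e1, e2]
  · show pt (s m).1.1 (s m).1.2 t = pt u v t
    rw [hsm]

/-- Uniformity: closeness at a sufficiently high level implies closeness. -/
theorem exists_level {X : Type*} [MetricSpace X] [CompactSpace X]
    (e : X ≃ₜ simplicialLimit V G φ) (η : ℝ) (hη : 0 < η) :
    ∃ m : ℕ, ∃ τ : ℝ, 0 < τ ∧ ∀ x y : X, l1 ((e x).1 m) ((e y).1 m) < τ → dist x y < η := by
  by_contra hcon
  push Not at hcon
  have hcont : ∀ m : ℕ, Continuous fun p : X × X => l1 ((e p.1).1 m) ((e p.2).1 m) := by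
    intro m
    unfold l1
    apply continuous_finsetSum
    intro v _
    have h1 : Continuous fun x : X => (e x).1 m v :=
      (continuous_apply v).comp ((continuous_apply m).comp
        (continuous_subtype_val.comp e.continuous))
    exact ((h1.comp continuous_fst).sub (h1.comp continuous_snd)).abs
  let C : ℕ → Set (X × X) := fun m =>
    {p | η ≤ dist p.1 p.2 ∧ l1 ((e p.1).1 m) ((e p.2).1 m) ≤ 1 / (m + 1 : ℝ)}
  have hCc : ∀ m, IsClosed (C m) := fun m =>
    (isClosed_le continuous_const (continuous_fst.dist continuous_snd)).inter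
      (isClosed_le (hcont m) continuous_const)
  have hne : ∀ m, (C m).Nonempty := by
    intro m
    obtain ⟨x, y, h1, h2⟩ := hcon m (1 / (m + 1 : ℝ)) (by positivity)
    exact ⟨(x, y), h2, h1.le⟩
  have hmono : ∀ m, C (m + 1) ⊆ C m := by
    rintro m ⟨x, y⟩ ⟨h1, h2⟩
    refine ⟨h1, ?_⟩
    have h3 := l1_mono (e x).2 (e y).2 m 1
    refine h3.trans (h2.trans ?_)
    apply one_div_le_one_div_of_le
    · positivity
    · push_cast
      linarith
  obtain ⟨⟨x, y⟩, hxy⟩ := IsCompact.nonempty_iInter_of_sequence_nonempty_isCompact_isClosed C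
    hmono hne (hCc 0).isCompact hCc
  rw [Set.mem_iInter] at hxy
  have hlev : ∀ n, (e x).1 n = (e y).1 n := by
    intro n
    apply eq_of_l1_le_zero
    apply le_of_forall_pos_le_add
    intro ε hε
    rw [zero_add]
    obtain ⟨k, hk⟩ := exists_nat_one_div_lt hε
    have h1 := (hxy (n + k)).2
    have h2 := l1_mono (e x).2 (e y).2 n k
    refine h2.trans (h1.trans (le_trans ?_ hk.le))
    apply one_div_le_one_div_of_le
    · positivity
    · push_cast
      linarith
  have hex : e x = e y := Subtype.ext (funext hlev)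
  have hxx : x = y := e.injective hex
  have := (hxy 0).1
  simp only [hxx, dist_self] at this
  linarith

theorem exists_level' {X : Type*} [MetricSpace X] [CompactSpace X]
    (e : X ≃ₜ simplicialLimit V G φ) (η : ℝ) (hη : 0 < η) (n : ℕ) :
    ∃ k : ℕ, ∃ τ : ℝ, 0 < τ ∧ ∀ x y : X,
      l1 ((e x).1 (n + k)) ((e y).1 (n + k)) < τ → dist x y < η := by
  obtain ⟨m, τ, hτ, h⟩ := exists_level e η hη
  refine ⟨m, τ, hτ, fun x y hxy => h x y ?_⟩
  have h1 := l1_mono (e x).2 (e y).2 m n
  have h2 : m + n = n + m := add_comm m n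
  rw [h2] at h1
  linarith

end

end Pool.Agent.Helper47.Span
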