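import Mathlib
import Pool.Agent.Lib.MP_da225d_gt.Helper47Seq

set_option autoImplicit false

namespace Pool.Agent.Helper47.Span

open Set

section

variable {V : Type} [Fintype V] {G : SimpleGraph V} {r : V} {par : V → V} {dep : V → ℕ}

omit [Fintype V] in
theorem pt_left {u v : V} (h : u ≠ v) (t : ℝ) : pt u v t u = 1 - t := by
  simp [pt, h]

omit [Fintype V] in
theorem pt_right {u v : V} (h : u ≠ v) (t : ℝ) : pt u v t v = t := by
  simp [pt, h.symm]

omit [Fintype V] in
theorem pt_other {u v w : V} (h : w ≠ u) (h' : w ≠ v) (t : ℝ) : pt u v t w = 0 := by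
  simp [pt, h, h']

omit [Fintype V] in
theorem pt_same (u : V) (t : ℝ) : pt u u t u = 1 := by
  simp [pt]

omit [Fintype V] in
theorem pt_swap (u v : V) (t : ℝ) : pt u v t = pt v u (1 - t) := by
  funext w
  simp only [pt]
  ring

theorem mem_pos {p : V → ℝ} (hp : p ∈ realization G) {u : V} (h : p u ≠ 0) : 0 < p u :=
  lt_of_le_of_ne (hp.1 u) h.symm

omit [Fintype V] in
theorem no_triangle (hdep : ∀ v, v ≠ r → dep (par v) < dep v)
    (hadj : ∀ u v, G.Adj u v → (u ≠ r ∧ par u = v) ∨ (v ≠ r ∧ par v = u)) {a b c : V}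
    (hab : G.Adj a b) (hbc : G.Adj b c) (hac : G.Adj a c) : False := by
  rcases hadj a b hab with ⟨h1, h2⟩ | ⟨h1, h2⟩ <;> rcases hadj b c hbc with ⟨h3, h4⟩ | ⟨h3, h4⟩ <;>
    rcases hadj a c hac with ⟨h5, h6⟩ | ⟨h5, h6⟩
  · exact hbc.ne (h2.symm.trans h6)
  · have e1 := hdep a h1
    have e2 := hdep b h3
    have e3 := hdep c h5
    rw [h2] at e1
    rw [h4] at e2
    rw [h6] at e3
    omega
  · exact hbc.ne (h2.symm.trans h6)
  · exact hab.ne (h6.symm.trans h4)
  · exact hbc.ne (by
      have e1 := hdep b h1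
      have e2 := hdep a h5
      rw [h2] at e1
      rw [h6] at e2
      exact absurd (h2.symm.trans h4) (fun h => hac.ne h))
  · exact hac.ne (h2.symm.trans h4)
  · have e1 := hdep b h1
    have e2 := hdep a h5
    have e3 := hdep c h3
    rw [h2] at e1
    rw [h6] at e2
    rw [h4] at e3
    omega
  · exact hab.ne (h6.symm.trans h4)

theorem support_pair (hdep : ∀ v, v ≠ r → dep (par v) < dep v)
    (hadj : ∀ u v, G.Adj u v → (u ≠ r ∧ par u = v) ∨ (v ≠ r ∧ par v = u))
    {p : V → ℝ} (hp : p ∈ realization G) {a b : V} (hab : a ≠ b) (ha : p a ≠ 0) (hb : p b ≠ 0) :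
    p = pt a b (p b) := by
  classical
  have h0 : ∀ c, c ≠ a → c ≠ b → p c = 0 := by
    intro c hca hcb
    by_contra hc
    exact no_triangle hdep hadj (hp.2.2 a b hab ha hb) (hp.2.2 b c hcb.symm hb hc)
      (hp.2.2 a c hca.symm ha hc)
  have hsum : p a + p b = 1 := by
    rw [← hp.2.1, ← Finset.sum_subset (Finset.subset_univ {a, b})]
    · rw [Finset.sum_pair hab]
    · intro c _ hc
      simp only [Finset.mem_insert, Finset.mem_singleton, not_or] at hc
      exact h0 c hc.1 hc.2
  funext w
  by_cases h1 : w = a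
  · subst h1
    rw [pt_left hab]
    linarith
  · by_cases h2 : w = b
    · subst h2
      rw [pt_right hab]
    · rw [pt_other h1 h2, h0 w h1 h2]

theorem structure_pt (hdep : ∀ v, v ≠ r → dep (par v) < dep v)
    (hadj : ∀ u v, G.Adj u v → (u ≠ r ∧ par u = v) ∨ (v ≠ r ∧ par v = u))
    {p : V → ℝ} (hp : p ∈ realization G) :
    (∃ u, p = pt u u 0) ∨ ∃ u t, u ≠ r ∧ 0 < t ∧ t < 1 ∧ G.Adj u (par u) ∧
      p = pt u (par u) t := by
  classical
  have hex : ∃ a, p a ≠ 0 := by
    by_contra hcon
    push Not at hcon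
    have h1 := hp.2.1
    simp [hcon] at h1
  obtain ⟨a, ha⟩ := hex
  by_cases hb : ∃ b, b ≠ a ∧ p b ≠ 0
  · right
    obtain ⟨b, hba, hb⟩ := hb
    have h1 := support_pair hdep hadj hp hba.symm ha hb
    have hA := hp.2.2 a b hba.symm ha hb
    have hpa : p a = 1 - p b := by
      have := congrFun h1 a
      rwa [pt_left hba.symm] at this
    have hpa0 := mem_pos hp ha
    have hpb0 := mem_pos hp hb
    rcases hadj a b hA with ⟨h2, h3⟩ | ⟨h2, h3⟩
    · refine ⟨a, p b, h2, hpb0, by linarith, ?_, ?_⟩
      · rw [h3]; exact hA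
      · rw [h3]; exact h1
    · refine ⟨b, p a, h2, hpa0, by linarith, ?_, ?_⟩
      · rw [h3]; exact hA.symm
      · rw [h3, pt_swap, hpa]
        rw [h1]
        congr 1
        rw [pt_right hba.symm]
        ring
  · left
    push Not at hb
    refine ⟨a, ?_⟩
    have hsum : p a = 1 := by
      rw [← hp.2.1, ← Finset.sum_subset (Finset.subset_univ {a})]
      · rw [Finset.sum_singleton]
      · intro c _ hc
        simp only [Finset.mem_singleton] at hc
        exact hb c hc
    funext w
    by_cases h1 : w = a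
    · subst h1
      rw [pt_same, hsum]
    · rw [pt_other h1 h1, hb w h1]

/-- Two points close to the same vertex are close. -/
theorem l1_vertex {p q : V → ℝ} (hp : p ∈ realization G) (hq : q ∈ realization G) {v : V} {s : ℝ}
    (h1 : 1 - s < p v) (h2 : 1 - s < q v) : l1 p q < 4 * s := by
  classical
  have hp1 : p v ≤ 1 := by
    rw [← hp.2.1]
    exact Finset.single_le_sum (f := p) (fun i _ => hp.1 i) (Finset.mem_univ v)
  have hq1 : q v ≤ 1 := by
    rw [← hq.2.1]
    exact Finset.single_le_sum (f := q) (fun i _ => hq.1 i) (Finset.mem_univ v)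
  have e1 : ∑ w ∈ Finset.univ.erase v, p w = 1 - p v := by
    have := Finset.add_sum_erase Finset.univ p (Finset.mem_univ v)
    have h := hp.2.1
    linarith
  have e2 : ∑ w ∈ Finset.univ.erase v, q w = 1 - q v := by
    have := Finset.add_sum_erase Finset.univ q (Finset.mem_univ v)
    have h := hq.2.1
    linarith
  have e3 : l1 p q = |p v - q v| + ∑ w ∈ Finset.univ.erase v, |p w - q w| := by
    unfold l1
    exact (Finset.add_sum_erase Finset.univ (fun w => |p w - q w|) (Finset.mem_univ v)).symm
  have e4 : ∑ w ∈ Finset.univ.erase v, |p w - q w| ≤ (1 - p v) + (1 - q v) := by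
    rw [← e1, ← e2, ← Finset.sum_add_distrib]
    apply Finset.sum_le_sum
    intro w _
    have h3 := hp.1 w
    have h4 := hq.1 w
    rw [abs_le]
    constructor <;> linarith
  have e5 : |p v - q v| < s := by
    rw [abs_lt]
    constructor <;> linarith
  rw [e3]
  linarith

theorem pair_le {p : V → ℝ} (hp : p ∈ realization G) {a b : V} (hab : a ≠ b) :
    p a + p b ≤ 1 := by
  classical
  rw [← hp.2.1, ← Finset.sum_pair hab]
  exact Finset.sum_le_sum_of_subset_of_nonneg (Finset.subset_univ _) (fun i _ _ => hp.1 i)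

end

/-- A map with small fibres onto the realization of a tree gives a fine rooted cover. -/
theorem cover_of_map {X : Type*} [MetricSpace X] {V : Type} [Fintype V] {G : SimpleGraph V}
    (hG : G.IsTree) (P : X → V → ℝ) (hP : Continuous P) (hmem : ∀ x, P x ∈ realization G)
    (hsurj : ∀ u v, (u = v ∨ G.Adj u v) → ∀ t : ℝ, 0 ≤ t → t ≤ 1 → ∃ x, P x = pt u v t)
    (τ η : ℝ) (hτ : 0 < τ) (hclose : ∀ x y, l1 (P x) (P y) < τ → dist x y < η) :
    ∃ (I : Type) (r : I) (par : I → I) (dep : I → ℕ) (U : I → Set X),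
    (∀ i, IsOpen (U i)) ∧ (∀ x, ∃ i, x ∈ U i) ∧ (∀ i, (U i).Nonempty) ∧
    (∀ i, i ≠ r → dep (par i) < dep i) ∧
    (∀ i j, i ≠ j → (U i ∩ U j).Nonempty → (i ≠ r ∧ par i = j) ∨ (j ≠ r ∧ par j = i)) ∧
    (∀ i, ∀ x ∈ U i, ∀ x' ∈ U i, dist x x' < 2 * η) ∧
    (∀ i, i ≠ r → ∀ x ∈ U i, ∀ x' ∈ U (par i), dist x x' < 2 * η) := by
  classical
  obtain ⟨r⟩ := hG.connected.nonempty
  obtain ⟨par, dep, hpar, hdep, hadj⟩ := exists_rooting hG r
  obtain ⟨N₀, hN₀⟩ := exists_nat_gt (4 / τ)
  let N : ℕ := N₀ + 2
  have hN2 : 2 ≤ N := by omega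
  have hNr : (2 : ℝ) ≤ (N : ℝ) := by exact_mod_cast hN2
  have hNpos : (0 : ℝ) < (N : ℝ) := by linarith
  have hNτ : 4 * (1 / (N : ℝ)) < τ := by
    have h1 : 4 / τ < (N : ℝ) := by
      refine hN₀.trans ?_
      have : (N : ℝ) = (N₀ : ℝ) + 2 := by
        simp [N]
      linarith
    rw [div_lt_iff₀ hτ] at h1
    rw [mul_one_div, div_lt_iff₀ hNpos]
    linarith
  let U : V × ℕ → Set X := fun i =>
    if i.2 = N then {x | (N : ℝ) - 1 < N * P x i.1} else
      {x | 0 < P x (par i.1) ∧ (i.2 : ℝ) - 1 < N * P x i.1 ∧ N * P x i.1 < (i.2 : ℝ) + 1}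
  have hUN : ∀ v, U (v, N) = {x | (N : ℝ) - 1 < N * P x v} := fun v => by simp [U]
  have hUk : ∀ v k, k ≠ N → U (v, k) =
      {x | 0 < P x (par v) ∧ (k : ℝ) - 1 < N * P x v ∧ N * P x v < (k : ℝ) + 1} :=
    fun v k hk => by simp [U, hk]
  have hPv : ∀ v, Continuous fun x => P x v := fun v => (continuous_apply v).comp hP
  have hUo : ∀ i, IsOpen (U i) := by
    rintro ⟨v, k⟩
    by_cases hk : k = N
    · subst hk
      rw [hUN]
      exact isOpen_lt continuous_const (continuous_const.mul (hPv v))
    · rw [hUk v k hk]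
      exact (isOpen_lt continuous_const (hPv _)).inter
        ((isOpen_lt continuous_const (continuous_const.mul (hPv v))).inter
          (isOpen_lt (continuous_const.mul (hPv v)) continuous_const))
  let C : V × ℕ → Prop := fun i => i.2 = N ∨ (i.1 ≠ r ∧ 1 ≤ i.2 ∧ i.2 < N)
  let parI : V × ℕ → V × ℕ := fun i => if i.2 = 1 then (par i.1, N) else (i.1, i.2 - 1)
  have hC0 : C (r, N) := Or.inl rfl
  have hCform : ∀ i, C i → i ≠ (r, N) → i.1 ≠ r ∧ 1 ≤ i.2 ∧ i.2 ≤ N := by
    rintro ⟨v, k⟩ (h | h) hne
    · have hk : k = N := h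
      subst hk
      refine ⟨?_, by show 1 ≤ N; omega, le_refl _⟩
      intro hv
      have hv : v = r := hv
      exact hne (by rw [hv])
    · exact ⟨h.1, h.2.1, h.2.2.le⟩
  have hCpar : ∀ i, C i → i ≠ (r, N) → C (parI i) := by
    rintro ⟨v, k⟩ hi hne
    obtain ⟨h1, h2, h3⟩ := hCform _ hi hne
    have h1 : v ≠ r := h1
    have h2 : 1 ≤ k := h2
    have h3 : k ≤ N := h3
    by_cases hk : k = 1
    · simp only [parI, hk, if_true]
      exact Or.inl rfl
    · simp only [parI, hk, if_false]
      right
      refine ⟨h1, ?_, ?_⟩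
      · show 1 ≤ k - 1
        omega
      · show k - 1 < N
        omega
  -- common points
  have hcommon : ∀ i, C i → i ≠ (r, N) → ∃ x, x ∈ U i ∧ x ∈ U (parI i) := by
    rintro ⟨v, k⟩ hi hne
    obtain ⟨h1, h2, h3⟩ := hCform _ hi hne
    have h1 : v ≠ r := h1
    have h2 : 1 ≤ k := h2
    have h3 : k ≤ N := h3
    have h2r : (1 : ℝ) ≤ (k : ℝ) := by exact_mod_cast h2
    have h3r : (k : ℝ) ≤ (N : ℝ) := by exact_mod_cast h3
    have hvp : par v ≠ v := (hpar v h1).ne'
    obtain ⟨x, hx⟩ := hsurj (par v) v (Or.inr (hpar v h1).symm) (((k : ℝ) - 1 / 2) / N)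
      (by apply div_nonneg <;> linarith) (by rw [div_le_one hNpos]; linarith)
    have hxv : N * P x v = (k : ℝ) - 1 / 2 := by
      rw [hx, pt_right hvp]
      field_simp
    have hxp : N * P x (par v) = N - ((k : ℝ) - 1 / 2) := by
      rw [hx, pt_left hvp]
      field_simp
    have hxp0 : 0 < P x (par v) := by
      have : 0 < N * P x (par v) := by
        rw [hxp]
        linarith
      exact (mul_pos_iff_of_pos_left hNpos).mp this
    refine ⟨x, ?_, ?_⟩
    · by_cases hk : k = N
      · subst hk
        rw [hUN]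
        show (N : ℝ) - 1 < N * P x v
        rw [hxv]
        linarith
      · rw [hUk v k hk]
        refine ⟨hxp0, ?_, ?_⟩ <;> rw [hxv] <;> linarith
    · by_cases hk : k = 1
      · simp only [parI, hk, if_true]
        rw [hUN]
        show (N : ℝ) - 1 < N * P x (par v)
        rw [hxp, hk]
        norm_num
      · simp only [parI, hk, if_false]
        have hk' : k - 1 ≠ N := by omega
        rw [hUk v _ hk']
        have hcast : ((k - 1 : ℕ) : ℝ) = (k : ℝ) - 1 := by
          rw [Nat.cast_sub h2]
          simp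
        refine ⟨hxp0, ?_, ?_⟩ <;> rw [hxv, hcast] <;> linarith
  -- closeness
  have hsm : ∀ i, C i → ∀ x ∈ U i, ∀ x' ∈ U i, dist x x' < η := by
    rintro ⟨v, k⟩ hi x hx x' hx'
    apply hclose
    refine lt_of_le_of_lt ?_ hNτ
    by_cases hk : k = N
    · subst hk
      rw [hUN] at hx hx'
      have hx : (N : ℝ) - 1 < N * P x v := hx
      have hx' : (N : ℝ) - 1 < N * P x' v := hx'
      apply (l1_vertex (s := 1 / (N : ℝ)) (hmem x) (hmem x') (v := v) ?_ ?_).le
      · rw [sub_lt_iff_lt_add, ← sub_lt_iff_lt_add', lt_div_iff₀ hNpos]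
        linarith
      · rw [sub_lt_iff_lt_add, ← sub_lt_iff_lt_add', lt_div_iff₀ hNpos]
        linarith
    · rcases hi with hi | hi
      · exact absurd hi hk
      · rw [hUk v k hk] at hx hx'
        obtain ⟨x1, x2, x3⟩ := hx
        obtain ⟨y1, y2, y3⟩ := hx'
        have h2r : (1 : ℝ) ≤ (k : ℝ) := by exact_mod_cast hi.2.1
        have hvp : par v ≠ v := (hpar v hi.1).ne'
        have px : 0 < P x v := by
          have : 0 < N * P x v := by linarith
          exact (mul_pos_iff_of_pos_left hNpos).mp this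
        have py : 0 < P x' v := by
          have : 0 < N * P x' v := by linarith
          exact (mul_pos_iff_of_pos_left hNpos).mp this
        rw [support_pair hdep hadj (hmem x) hvp x1.ne' px.ne',
          support_pair hdep hadj (hmem x') hvp y1.ne' py.ne']
        refine (l1_pt_le _ _ _ _).trans ?_
        have : |P x v - P x' v| ≤ 2 * (1 / (N : ℝ)) := by
          rw [mul_one_div, le_div_iff₀ hNpos]
          rw [← abs_of_pos hNpos, ← abs_mul, abs_le]
          constructor <;> nlinarith
        linarith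
  -- overlaps
  have hover : ∀ i j, C i → C j → i ≠ j → (∃ x, x ∈ U i ∧ x ∈ U j) →
      (i ≠ (r, N) ∧ parI i = j) ∨ (j ≠ (r, N) ∧ parI j = i) := by
    -- one vertex index, one edge index
    have key : ∀ v w l, C (w, l) → l ≠ N → (∃ x, x ∈ U (v, N) ∧ x ∈ U (w, l)) →
        ((v, N) ≠ (r, N) ∧ parI (v, N) = (w, l)) ∨ ((w, l) ≠ (r, N) ∧ parI (w, l) = (v, N)) := by
      rintro v w l hC hl ⟨x, hx, hx'⟩
      rw [hUN] at hx
      rw [hUk w l hl] at hx'
      have hx : (N : ℝ) - 1 < N * P x v := hx
      obtain ⟨y1, y2, y3⟩ := hx'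
      have hC' := hC.resolve_left hl
      have hw : w ≠ r := hC'.1
      have hl1 : 1 ≤ l := hC'.2.1
      have hlN : l < N := hC'.2.2
      have h2r : (1 : ℝ) ≤ (l : ℝ) := by exact_mod_cast hl1
      have hwp : par w ≠ w := (hpar w hw).ne'
      have pv : 0 < P x v := by
        have : 0 < N * P x v := by linarith
        exact (mul_pos_iff_of_pos_left hNpos).mp this
      have pw : 0 < P x w := by
        have : 0 < N * P x w := by linarith
        exact (mul_pos_iff_of_pos_left hNpos).mp this
      have hpx := support_pair hdep hadj (hmem x) hwp y1.ne' pw.ne'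
      by_cases hvw : v = w
      · subst hvw
        left
        refine ⟨fun h => hw (congrArg Prod.fst h), ?_⟩
        have h5 : (N : ℝ) - 1 < (l : ℝ) + 1 := by linarith
        have h6 : N < l + 2 := by
          have : (N : ℝ) < (l : ℝ) + 2 := by linarith
          exact_mod_cast this
        have h7 : l = N - 1 := by omega
        have hN1 : N ≠ 1 := by omega
        simp only [parI, hN1, if_false, h7]
      · right
        have hvp : v = par w := by
          by_contra hvp
          have := congrFun hpx v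
          rw [pt_other hvp hvw] at this
          exact pv.ne' this
        refine ⟨fun h => hw (congrArg Prod.fst h), ?_⟩
        have h8 : P x v + P x w ≤ 1 := pair_le (hmem x) hvw
        have h9 : N * P x v + N * P x w ≤ N := by
          rw [← mul_add]
          calc (N : ℝ) * (P x v + P x w) ≤ N * 1 := by
                apply mul_le_mul_of_nonneg_left h8 hNpos.le
            _ = N := mul_one _
        have h10 : l < 2 := by
          have : (l : ℝ) < 2 := by linarith
          exact_mod_cast this
        have h11 : l = 1 := by omega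
        simp only [parI, h11, if_true, ← hvp]
    rintro ⟨v, k⟩ ⟨w, l⟩ hCi hCj hij ⟨x, hx, hx'⟩
    by_cases hk : k = N
    · subst hk
      by_cases hl : l = N
      · subst hl
        exfalso
        have hvw : v ≠ w := by
          rintro rfl
          exact hij rfl
        rw [hUN] at hx hx'
        have hx : (N : ℝ) - 1 < N * P x v := hx
        have hx' : (N : ℝ) - 1 < N * P x w := hx'
        have h8 : P x v + P x w ≤ 1 := pair_le (hmem x) hvw
        have h9 : N * P x v + N * P x w ≤ N := by
          rw [← mul_add]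
          calc (N : ℝ) * (P x v + P x w) ≤ N * 1 := by
                apply mul_le_mul_of_nonneg_left h8 hNpos.le
            _ = N := mul_one _
        linarith
      · exact key v w l hCj hl ⟨x, hx, hx'⟩
    · by_cases hl : l = N
      · subst hl
        exact (key w v k hCi hk ⟨x, hx', hx⟩).symm
      · rw [hUk v k hk] at hx
        rw [hUk w l hl] at hx'
        obtain ⟨x1, x2, x3⟩ := hx
        obtain ⟨y1, y2, y3⟩ := hx'
        have hCi' := hCi.resolve_left hk
        have hCj' := hCj.resolve_left hl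
        have hv : v ≠ r := hCi'.1
        have hw : w ≠ r := hCj'.1
        have hk1 : 1 ≤ k := hCi'.2.1
        have hl1 : 1 ≤ l := hCj'.2.1
        have hk1r : (1 : ℝ) ≤ (k : ℝ) := by exact_mod_cast hk1
        have hl1r : (1 : ℝ) ≤ (l : ℝ) := by exact_mod_cast hl1
        have hvp : par v ≠ v := (hpar v hv).ne'
        have hwp : par w ≠ w := (hpar w hw).ne'
        have pv : 0 < P x v := by
          have : 0 < N * P x v := by linarith
          exact (mul_pos_iff_of_pos_left hNpos).mp this
        have pw : 0 < P x w := by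
          have : 0 < N * P x w := by linarith
          exact (mul_pos_iff_of_pos_left hNpos).mp this
        have hpx := support_pair hdep hadj (hmem x) hwp y1.ne' pw.ne'
        have hpx' := support_pair hdep hadj (hmem x) hvp x1.ne' pv.ne'
        have hvw : v = w := by
          by_contra hvw
          have h1 : v = par w := by
            by_contra hh
            have := congrFun hpx v
            rw [pt_other hh hvw] at this
            exact pv.ne' this
          have h2 : w = par v := by
            by_contra hh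
            have := congrFun hpx' w
            rw [pt_other hh (Ne.symm hvw)] at this
            exact pw.ne' this
          have d1 := hdep v hv
          have d2 := hdep w hw
          rw [← h1] at d2
          rw [← h2] at d1
          omega
        subst hvw
        have hkl : k ≠ l := by
          rintro rfl
          exact hij rfl
        have e1 : k < l + 2 := by
          have : (k : ℝ) < (l : ℝ) + 2 := by linarith
          exact_mod_cast this
        have e2 : l < k + 2 := by
          have : (l : ℝ) < (k : ℝ) + 2 := by linarith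
          exact_mod_cast this
        rcases lt_or_gt_of_ne hkl with hlt | hgt
        · right
          refine ⟨fun h => hw (congrArg Prod.fst h), ?_⟩
          have h5 : l ≠ 1 := by omega
          have h6 : l - 1 = k := by omega
          simp only [parI, h5, if_false, h6]
        · left
          refine ⟨fun h => hw (congrArg Prod.fst h), ?_⟩
          have h5 : k ≠ 1 := by omega
          have h6 : k - 1 = l := by omega
          simp only [parI, h5, if_false, h6]
  -- covering
  have hcover : ∀ x, ∃ i, C i ∧ x ∈ U i := by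
    intro x
    rcases structure_pt hdep hadj (hmem x) with ⟨u, hu⟩ | ⟨u, t, hur, ht0, ht1, hA, hu⟩
    · refine ⟨(u, N), Or.inl rfl, ?_⟩
      rw [hUN]
      show (N : ℝ) - 1 < N * P x u
      rw [hu, pt_same]
      linarith
    · have hup : u ≠ par u := hA.ne
      have e1 : P x u = 1 - t := by rw [hu, pt_left hup]
      have e2 : P x (par u) = t := by rw [hu, pt_right hup]
      by_cases c1 : (N : ℝ) - 1 < N * P x u
      · refine ⟨(u, N), Or.inl rfl, ?_⟩
        rw [hUN]
        exact c1
      · by_cases c2 : N * P x u < 1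
        · refine ⟨(par u, N), Or.inl rfl, ?_⟩
          rw [hUN]
          show (N : ℝ) - 1 < N * P x (par u)
          rw [e2]
          rw [e1] at c2
          linarith
        · push Not at c1 c2
          have hnn : 0 ≤ N * P x u := by linarith
          have f1 := Nat.floor_le hnn
          have f2 := Nat.lt_floor_add_one (N * P x u)
          have f3 : 1 ≤ ⌊N * P x u⌋₊ := by
            rw [Nat.one_le_floor_iff]
            exact c2
          have f4 : ⌊N * P x u⌋₊ < N := by
            have : ((⌊N * P x u⌋₊ : ℕ) : ℝ) < (N : ℝ) := by linarith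
            exact_mod_cast this
          refine ⟨(u, ⌊N * P x u⌋₊), Or.inr ⟨hur, f3, f4⟩, ?_⟩
          rw [hUk _ _ f4.ne]
          refine ⟨?_, ?_, f2⟩
          · rw [e2]
            exact ht0
          · linarith
  -- assemble
  let I : Type := {i : V × ℕ // C i}
  let parJ : I → I := fun i => if h : i.1 = (r, N) then ⟨(r, N), hC0⟩ else
    ⟨parI i.1, hCpar i.1 i.2 h⟩
  have hparJ : ∀ i : I, i ≠ ⟨(r, N), hC0⟩ → (parJ i).1 = parI i.1 := by
    intro i hi
    have : i.1 ≠ (r, N) := fun h => hi (Subtype.ext h)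
    simp only [parJ, this, dif_neg, not_false_eq_true]
  have hne' : ∀ i : I, i ≠ ⟨(r, N), hC0⟩ → i.1 ≠ (r, N) := fun i hi h => hi (Subtype.ext h)
  refine ⟨I, ⟨(r, N), hC0⟩, parJ, fun i => N * dep i.1.1 + i.1.2, fun i => U i.1,
    fun i => hUo _, ?_, ?_, ?_, ?_, ?_, ?_⟩
  · intro x
    obtain ⟨i, hi, hx⟩ := hcover x
    exact ⟨⟨i, hi⟩, hx⟩
  · intro i
    by_cases hi : i = ⟨(r, N), hC0⟩
    · subst hi
      obtain ⟨x, hx⟩ := hsurj r r (Or.inl rfl) 0 le_rfl zero_le_one
      refine ⟨x, ?_⟩
      show x ∈ U (r, N)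
      rw [hUN]
      show (N : ℝ) - 1 < N * P x r
      rw [hx, pt_same]
      linarith
    · obtain ⟨x, hx, -⟩ := hcommon i.1 i.2 (hne' i hi)
      exact ⟨x, hx⟩
  · intro i hi
    show N * dep (parJ i).1.1 + (parJ i).1.2 < N * dep i.1.1 + i.1.2
    rw [hparJ i hi]
    obtain ⟨⟨v, k⟩, hCi⟩ := i
    obtain ⟨h1, h2, h3⟩ := hCform (v, k) hCi (hne' _ hi)
    have h1 : v ≠ r := h1
    have h2 : 1 ≤ k := h2
    have h3 : k ≤ N := h3
    by_cases hk : k = 1
    · simp only [parI, hk, if_true]
      have h4 := hdep v h1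
      have h5 : N * (dep (par v) + 1) ≤ N * dep v := Nat.mul_le_mul_left N h4
      rw [mul_add, mul_one] at h5
      omega
    · simp only [parI, hk, if_false]
      omega
  · rintro i j hij ⟨x, hx, hx'⟩
    rcases hover i.1 j.1 i.2 j.2 (fun h => hij (Subtype.ext h)) ⟨x, hx, hx'⟩ with
      ⟨h1, h2⟩ | ⟨h1, h2⟩
    · left
      have h3 : i ≠ ⟨(r, N), hC0⟩ := fun h => h1 (congrArg Subtype.val h)
      exact ⟨h3, Subtype.ext ((hparJ i h3).trans h2)⟩
    · right
      have h3 : j ≠ ⟨(r, N), hC0⟩ := fun h => h1 (congrArg Subtype.val h)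
      exact ⟨h3, Subtype.ext ((hparJ j h3).trans h2)⟩
  · intro i x hx x' hx'
    have h1 := hsm i.1 i.2 x hx x' hx'
    have h2 : 0 ≤ dist x x' := dist_nonneg
    linarith
  · intro i hi x hx x' hx'
    obtain ⟨z, hz, hz'⟩ := hcommon i.1 i.2 (hne' i hi)
    have h1 := hsm i.1 i.2 x hx z hz
    have h3 : x' ∈ U (parI i.1) := by
      rw [← hparJ i hi]
      exact hx'
    have h2 := hsm (parI i.1) (hCpar i.1 i.2 (hne' i hi)) z hz' x' h3
    have h4 := dist_triangle x z x'
    linarith

end Pool.Agent.Helper47.Span
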