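import Mathlib
import Pool.Agent.Lib.MP_da225d_gt.Helper47Root

set_option autoImplicit false

namespace Pool.Agent.Helper47.Span

open Complex Set Filter Topology

/-- An uncountable set in a second countable metric space has a point which is a limit of other
points of the set. -/
theorem exists_condensation {C : Type*} [MetricSpace C] [SecondCountableTopology C] (S : Set C)
    (hS : ¬ S.Countable) : ∃ f ∈ S, ∀ δ : ℝ, 0 < δ → ∃ g ∈ S, g ≠ f ∧ dist f g < δ := by
  by_contra hcon
  push Not at hcon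
  apply hS
  have hd : DiscreteTopology S := by
    rw [discreteTopology_subtype_iff']
    intro f hf
    obtain ⟨δ, hδ, h⟩ := hcon f hf
    refine ⟨Metric.ball f δ, Metric.isOpen_ball, ?_⟩
    ext g
    constructor
    · rintro ⟨h1, h2⟩
      by_contra hne
      have := h g h2 hne
      rw [Metric.mem_ball, dist_comm] at h1
      linarith
    · rintro rfl
      exact ⟨Metric.mem_ball_self hδ, hf⟩
  have : Countable S := TopologicalSpace.separableSpace_iff_countable.mp inferInstance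
  exact this.to_set

theorem re_div_neg_of_close {w a b : ℂ} {δ : ℝ} (ha : ‖a‖ ≤ δ) (hb : ‖b‖ ≤ δ)
    (hw : 4 * δ < ‖w‖) : ((w + a) / (-w + b)).re < 0 := by
  have hδ : 0 ≤ δ := (norm_nonneg a).trans ha
  have hw0 : 0 < ‖w‖ := by linarith
  have hden : -w + b ≠ 0 := by
    intro h
    have : w = b := by
      have := congrArg (fun z => z + w) h
      simpa using this.symm
    rw [this] at hw
    linarith
  have e : (w + a) / (-w + b) = ((w + a) * (starRingEnd ℂ) (-w + b)) / (Complex.normSq (-w + b) : ℂ) := by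
    rw [Complex.normSq_eq_conj_mul_self]
    have h1 : (starRingEnd ℂ) (-w + b) ≠ 0 := by
      rw [Ne, map_eq_zero]
      exact hden
    field_simp
  rw [e, Complex.div_ofReal_re]
  apply div_neg_of_neg_of_pos _ (Complex.normSq_pos.mpr hden)
  have e2 : ((w + a) * (starRingEnd ℂ) (-w + b)).re =
      - ‖w‖ ^ 2 + ((w * (starRingEnd ℂ) b).re - (a * (starRingEnd ℂ) w).re +
        (a * (starRingEnd ℂ) b).re) := by
    rw [← Complex.normSq_eq_norm_sq, Complex.normSq_apply]
    simp
    ring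
  rw [e2]
  have h1 : |(w * (starRingEnd ℂ) b).re| ≤ ‖w‖ * ‖b‖ := by
    refine (Complex.abs_re_le_norm _).trans ?_
    simp
  have h2 : |(a * (starRingEnd ℂ) w).re| ≤ ‖a‖ * ‖w‖ := by
    refine (Complex.abs_re_le_norm _).trans ?_
    simp
  have h3 : |(a * (starRingEnd ℂ) b).re| ≤ ‖a‖ * ‖b‖ := by
    refine (Complex.abs_re_le_norm _).trans ?_
    simp
  have h1' := (abs_le.mp h1).2
  have h2' := (abs_le.mp h2).1
  have h3' := (abs_le.mp h3).2
  have k1 : ‖w‖ * ‖b‖ ≤ ‖w‖ * δ := by gcongr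
  have k2 : ‖a‖ * ‖w‖ ≤ δ * ‖w‖ := by gcongr
  have k3 : ‖a‖ * ‖b‖ ≤ δ * δ := by gcongr
  have k4 : δ * δ ≤ δ * ‖w‖ := by
    apply mul_le_mul_of_nonneg_left _ hδ
    linarith
  nlinarith

/-- The angle function of two disjoint planar copies. -/
theorem exists_sign {X : Type*} [MetricSpace X] [CompactSpace X] [Nonempty X] (hX : RootCov X)
    (f h : X → ℂ) (hf : Continuous f) (hh : Continuous h) (hne : ∀ x y, f x ≠ h y) (δ : ℝ)
    (hδ : ∀ x, ‖f x - h x‖ ≤ δ) :
    ∃ G : X → X → ℝ, Continuous (fun p : X × X => G p.1 p.2) ∧ (∀ x y, G y x = - G x y) ∧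
      ∀ x y, 4 * δ < ‖f x - f y‖ → G x y ≠ 0 := by
  obtain ⟨g, hg, hge⟩ := exists_log_of_rootCov hX (fun p : X × X => f p.1 - h p.2)
    ((hf.comp continuous_fst).sub (hh.comp continuous_snd))
    (fun p => sub_ne_zero.mpr (hne _ _))
  refine ⟨fun x y => (g (x, y)).im - (g (y, x)).im, ?_, ?_, ?_⟩
  · exact (Complex.continuous_im.comp hg).sub (Complex.continuous_im.comp (hg.comp continuous_swap))
  · intro x y
    ring
  · intro x y hxy h0
    have h1 : Complex.exp (g (x, y) - g (y, x)) = (f x - h y) / (f y - h x) := by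
      rw [Complex.exp_sub, hge, hge]
    have h2 : g (x, y) - g (y, x) = (((g (x, y)).re - (g (y, x)).re : ℝ) : ℂ) := by
      apply Complex.ext
      · simp
      · simp
        linarith
    have h3 : 0 < ((f x - h y) / (f y - h x)).re := by
      rw [← h1, h2, ← Complex.ofReal_exp, Complex.ofReal_re]
      exact Real.exp_pos _
    have h4 : ((f x - h y) / (f y - h x)).re < 0 := by
      have e1 : f x - h y = (f x - f y) + (f y - h y) := by ring
      have e2 : f y - h x = -(f x - f y) + (f x - h x) := by ring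
      rw [e1, e2]
      exact re_div_neg_of_close (hδ y) (hδ x) hxy
    linarith

/-- Symmetric span zero, abstract form. -/
theorem symmetric_meets_diagonal {X : Type*} [MetricSpace X] [CompactSpace X] [Nonempty X]
    (hX : RootCov X) (𝓕 : Set C(X, ℂ)) (h𝓕 : ¬ 𝓕.Countable)
    (hinj : ∀ f ∈ 𝓕, Function.Injective f)
    (hdis : ∀ f ∈ 𝓕, ∀ g ∈ 𝓕, g ≠ f → ∀ x y, f x ≠ g y)
    (Z : Set (X × X)) (hZc : IsCompact Z) (hZ : IsConnected Z)
    (hsymm : ∀ p ∈ Z, p.swap ∈ Z) : ∃ p ∈ Z, p.1 = p.2 := by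
  by_contra hcon
  push Not at hcon
  obtain ⟨f, hf, hclose⟩ := exists_condensation 𝓕 h𝓕
  obtain ⟨p₀, hp₀, hmin⟩ := hZc.exists_isMinOn hZ.nonempty
    (f := fun p : X × X => ‖f p.1 - f p.2‖) (by fun_prop)
  have hpos : 0 < ‖f p₀.1 - f p₀.2‖ := by
    rw [norm_pos_iff, sub_ne_zero]
    intro h
    exact hcon p₀ hp₀ (hinj f hf h)
  obtain ⟨h, hh, hne, hdist⟩ := hclose (‖f p₀.1 - f p₀.2‖ / 8) (by linarith)
  obtain ⟨G, hG, hGa, hG0⟩ := exists_sign hX f h f.continuous h.continuous
    (hdis f hf h hh hne) (‖f p₀.1 - f p₀.2‖ / 8) (fun x => by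
      rw [← dist_eq_norm]
      exact (ContinuousMap.dist_apply_le_dist x).trans hdist.le)
  have hGZ : ∀ p ∈ Z, G p.1 p.2 ≠ 0 := by
    intro p hp
    apply hG0
    have := hmin hp
    simp only [mem_setOf_eq] at this
    linarith
  -- intermediate value
  have hcont : ContinuousOn (fun p : X × X => G p.1 p.2) Z := hG.continuousOn
  rcases lt_or_gt_of_ne (hGZ p₀ hp₀) with hlt | hgt
  · have h1 : 0 < G p₀.swap.1 p₀.swap.2 := by
      show 0 < G p₀.2 p₀.1
      rw [hGa]
      linarith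
    obtain ⟨q, hq, hq0⟩ := hZ.isPreconnected.intermediate_value hp₀ (hsymm p₀ hp₀) hcont
      ⟨hlt.le, h1.le⟩
    exact hGZ q hq hq0
  · have h1 : G p₀.swap.1 p₀.swap.2 < 0 := by
      show G p₀.2 p₀.1 < 0
      rw [hGa]
      linarith
    obtain ⟨q, hq, hq0⟩ := hZ.isPreconnected.intermediate_value (hsymm p₀ hp₀) hp₀ hcont
      ⟨h1.le, hgt.le⟩
    exact hGZ q hq hq0

end Pool.Agent.Helper47.Span
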