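import Mathlib

set_option autoImplicit false

namespace Pool.Agent.Helper47.Span

open Set

/-- A finite rooted tree with a proper labelling and a sign which is locally constant as long as
the labels stay different. -/
structure Sys (V L : Type) where
  r : V
  par : V → V
  dep : V → ℕ
  lab : V → L
  sg : V → V → Prop
  dep_lt : ∀ v, v ≠ r → dep (par v) < dep v
  proper : ∀ v, v ≠ r → lab v ≠ lab (par v)
  anti : ∀ u v, lab u ≠ lab v → (sg u v ↔ ¬ sg v u)
  inv : ∀ v w, v ≠ r → lab v ≠ lab w → lab (par v) ≠ lab w → (sg v w ↔ sg (par v) w)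

namespace Sys

variable {V L : Type} (S : Sys V L)

/-- neighbours -/
def Nb (a c : V) : Prop := (a ≠ S.r ∧ S.par a = c) ∨ (c ≠ S.r ∧ S.par c = a)

theorem nb_inv {a c : V} (h : S.Nb a c) (w : V) (h1 : S.lab a ≠ S.lab w)
    (h2 : S.lab c ≠ S.lab w) : S.sg a w ↔ S.sg c w := by
  rcases h with ⟨h, rfl⟩ | ⟨h, rfl⟩
  · exact S.inv a w h h1 h2
  · exact (S.inv c w h h2 h1).symm

theorem nb_ne {a c : V} (h : S.Nb a c) : S.lab a ≠ S.lab c := by
  rcases h with ⟨h, rfl⟩ | ⟨h, rfl⟩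
  · exact S.proper a h
  · exact (S.proper c h).symm

/-- No vertex has three neighbours with three distinct labels. -/
theorem no_tripod {c a b p : V} (ha : S.Nb a c) (hb : S.Nb b c) (hp : S.Nb p c)
    (hab : S.lab a ≠ S.lab b) (hap : S.lab a ≠ S.lab p) (hbp : S.lab b ≠ S.lab p) : False := by
  have na := S.nb_ne ha
  have nb := S.nb_ne hb
  have np := S.nb_ne hp
  have e1 := S.nb_inv hb a hab.symm na.symm
  have e2 := S.nb_inv hp a hap.symm na.symm
  have e3 := S.nb_inv ha p hap np.symm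
  have e4 := S.nb_inv hb p hbp np.symm
  have e5 := S.nb_inv ha b hab nb.symm
  have e6 := S.nb_inv hp b hbp.symm nb.symm
  have a1 := S.anti a b hab
  have a2 := S.anti a p hap
  have a3 := S.anti b p hbp
  have z : S.sg a b ↔ ¬ S.sg a b := by
    calc S.sg a b ↔ ¬ S.sg b a := a1
      _ ↔ ¬ S.sg p a := not_congr (e1.trans e2.symm)
      _ ↔ S.sg a p := a2.symm
      _ ↔ S.sg b p := e3.trans e4.symm
      _ ↔ ¬ S.sg p b := a3
      _ ↔ ¬ S.sg a b := not_congr (e6.trans e5.symm)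
  exact iff_not_self z

open Classical in
/-- the class of the edge from `v` to its parent: top vertex and other label -/
noncomputable def cls (v : V) : V × L :=
  if h : v = S.r then (S.r, S.lab v) else
    if S.par v = S.r then (S.r, S.lab v) else
      if S.lab v = S.lab (S.par (S.par v)) then cls (S.par v) else (S.par v, S.lab v)
termination_by S.dep v
decreasing_by exact S.dep_lt v h

theorem cls_root_child {v : V} (h : v ≠ S.r) (h1 : S.par v = S.r) : S.cls v = (S.r, S.lab v) := by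
  rw [cls]
  simp [h, h1]

theorem cls_same {v : V} (h : v ≠ S.r) (h1 : S.par v ≠ S.r)
    (h2 : S.lab v = S.lab (S.par (S.par v))) : S.cls v = S.cls (S.par v) := by
  rw [cls, dif_neg h, if_neg h1, if_pos h2]

theorem cls_new {v : V} (h : v ≠ S.r) (h1 : S.par v ≠ S.r)
    (h2 : S.lab v ≠ S.lab (S.par (S.par v))) : S.cls v = (S.par v, S.lab v) := by
  rw [cls, dif_neg h, if_neg h1, if_neg h2]

/-- induction along the classes -/
theorem cls_ind (P : V → Prop)
    (h1 : ∀ v, v ≠ S.r → S.par v = S.r → P v)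
    (h2 : ∀ v, v ≠ S.r → S.par v ≠ S.r → S.lab v = S.lab (S.par (S.par v)) → P (S.par v) → P v)
    (h3 : ∀ v, v ≠ S.r → S.par v ≠ S.r → S.lab v ≠ S.lab (S.par (S.par v)) → P v) :
    ∀ v, v ≠ S.r → P v := by
  have key : ∀ n : ℕ, ∀ v, S.dep v ≤ n → v ≠ S.r → P v := by
    intro n
    induction n with
    | zero =>
      intro v hv hr
      have := S.dep_lt v hr
      omega
    | succ n ih =>
      intro v hv hr
      by_cases hp : S.par v = S.r
      · exact h1 v hr hp
      · by_cases hl : S.lab v = S.lab (S.par (S.par v))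
        · refine h2 v hr hp hl (ih _ ?_ hp)
          have := S.dep_lt v hr
          omega
        · exact h3 v hr hp hl
  intro v hv
  exact key (S.dep v) v le_rfl hv

/-- the label pair of a class -/
def lab1 (q : V × L) : Sym2 L := s(S.lab q.1, q.2)

theorem lab1_cls : ∀ v, v ≠ S.r → S.lab1 (S.cls v) = s(S.lab v, S.lab (S.par v)) := by
  apply S.cls_ind
  · intro v h h1
    rw [S.cls_root_child h h1, h1]
    exact Sym2.eq_swap
  · intro v h h1 h2 ih
    rw [S.cls_same h h1 h2, ih, h2]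
    exact Sym2.eq_swap
  · intro v h h1 h2
    rw [S.cls_new h h1 h2]
    exact Sym2.eq_swap

/-- membership of a vertex in a class -/
def Mem (u : V) (q : V × L) : Prop := ∃ v, v ≠ S.r ∧ S.cls v = q ∧ (u = v ∨ u = S.par v)

/-- canonical classes -/
def IsCls (q : V × L) : Prop := ∃ v, v ≠ S.r ∧ S.cls v = q

theorem Mem.isCls {S : Sys V L} {u : V} {q : V × L} (h : S.Mem u q) : S.IsCls q := by
  obtain ⟨v, h1, h2, -⟩ := h
  exact ⟨v, h1, h2⟩

theorem mem_lab {u : V} {q : V × L} (h : S.Mem u q) : S.lab u ∈ S.lab1 q := by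
  obtain ⟨v, h1, rfl, rfl | rfl⟩ := h
  · rw [S.lab1_cls _ h1]
    simp
  · rw [S.lab1_cls _ h1]
    simp

/-- Each class contains a top edge. -/
theorem cls_top : ∀ v, v ≠ S.r → ∃ v', v' ≠ S.r ∧ S.cls v' = S.cls v ∧ S.par v' = (S.cls v).1 ∧
    S.lab v' = (S.cls v).2 ∧ S.dep (S.cls v).1 < S.dep v ∧
    ((S.cls v).1 ≠ S.r → (S.cls v).2 ≠ S.lab (S.par (S.cls v).1)) := by
  apply S.cls_ind
  · intro v h h1
    refine ⟨v, h, rfl, ?_, ?_, ?_, ?_⟩
    · rw [S.cls_root_child h h1, h1]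
    · rw [S.cls_root_child h h1]
    · rw [S.cls_root_child h h1]
      have := S.dep_lt v h
      rwa [h1] at this
    · rw [S.cls_root_child h h1]
      intro h2
      exact absurd rfl h2
  · intro v h h1 h2 ih
    rw [S.cls_same h h1 h2]
    obtain ⟨v', h3, h4, h5, h6, h7, h8⟩ := ih
    exact ⟨v', h3, h4, h5, h6, h7.trans (S.dep_lt v h), h8⟩
  · intro v h h1 h2
    refine ⟨v, h, rfl, ?_, ?_, ?_, ?_⟩
    · rw [S.cls_new h h1 h2]
    · rw [S.cls_new h h1 h2]
    · rw [S.cls_new h h1 h2]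
      exact S.dep_lt v h
    · rw [S.cls_new h h1 h2]
      intro _
      exact h2

theorem isCls_top {q : V × L} (hq : S.IsCls q) : ∃ v', v' ≠ S.r ∧ S.cls v' = q ∧
    S.par v' = q.1 ∧ S.lab v' = q.2 := by
  obtain ⟨v, hv, rfl⟩ := hq
  obtain ⟨v', h3, h4, h5, h6, h7, h8⟩ := S.cls_top v hv
  exact ⟨v', h3, h4, h5, h6⟩

theorem isCls_ne {q : V × L} (hq : S.IsCls q) (h : q.1 ≠ S.r) : q.2 ≠ S.lab (S.par q.1) := by
  obtain ⟨v, hv, rfl⟩ := hq
  obtain ⟨v', h3, h4, h5, h6, h7, h8⟩ := S.cls_top v hv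
  exact h8 h

theorem top_mem {q : V × L} (hq : S.IsCls q) : S.Mem q.1 q := by
  obtain ⟨v', h1, h2, h3, h4⟩ := S.isCls_top hq
  exact ⟨v', h1, h2, Or.inr h3.symm⟩

theorem lab1_not_diag {q : V × L} (hq : S.IsCls q) : S.lab q.1 ≠ q.2 := by
  obtain ⟨v', h1, h2, h3, h4⟩ := S.isCls_top hq
  rw [← h3, ← h4]
  exact (S.proper v' h1).symm

/-- constancy of the sign on a class -/
theorem sg_const_aux (w : V) : ∀ v, v ≠ S.r → (S.lab w ∉ s(S.lab v, S.lab (S.par v)) →
    (S.sg v w ↔ S.sg (S.cls v).1 w) ∧ (S.sg (S.par v) w ↔ S.sg (S.cls v).1 w)) := by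
  have step : ∀ v, v ≠ S.r → S.lab w ∉ s(S.lab v, S.lab (S.par v)) →
      (S.sg v w ↔ S.sg (S.par v) w) := by
    intro v hv hw
    simp only [Sym2.mem_iff, not_or] at hw
    exact S.inv v w hv (fun h => hw.1 h.symm) (fun h => hw.2 h.symm)
  apply S.cls_ind
  · intro v h h1 hw
    have := step v h hw
    rw [S.cls_root_child h h1]
    rw [h1] at this
    refine ⟨this, ?_⟩
    rw [h1]
  · intro v h h1 h2 ih hw
    have h3 := step v h hw
    rw [S.cls_same h h1 h2]
    have hw' : S.lab w ∉ s(S.lab (S.par v), S.lab (S.par (S.par v))) := by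
      rw [← h2]
      intro hh
      apply hw
      rw [Sym2.mem_iff] at hh ⊢
      tauto
    have := ih hw'
    exact ⟨h3.trans this.1, this.1⟩
  · intro v h h1 h2 hw
    have h3 := step v h hw
    rw [S.cls_new h h1 h2]
    exact ⟨h3, Iff.rfl⟩

theorem sg_const {q : V × L} {u u' w : V} (hu : S.Mem u q) (hu' : S.Mem u' q)
    (hw : S.lab w ∉ S.lab1 q) : S.sg u w ↔ S.sg u' w := by
  have key : ∀ x, S.Mem x q → (S.sg x w ↔ S.sg q.1 w) := by
    rintro x ⟨v, hv, rfl, hx⟩
    rw [S.lab1_cls v hv] at hw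
    have := S.sg_const_aux w v hv hw
    rcases hx with rfl | rfl
    · exact this.1
    · exact this.2
  exact (key u hu).trans (key u' hu').symm

theorem sg_const' {q : V × L} {u u' w : V} (hu : S.Mem u q) (hu' : S.Mem u' q)
    (hw : S.lab w ∉ S.lab1 q) : S.sg w u ↔ S.sg w u' := by
  have h1 : S.lab w ≠ S.lab u := fun h => hw (h ▸ S.mem_lab hu)
  have h2 : S.lab w ≠ S.lab u' := fun h => hw (h ▸ S.mem_lab hu')
  rw [S.anti w u h1, S.anti w u' h2, S.sg_const hu hu' hw]

/-- In a class there is a vertex whose label avoids another label pair. -/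
theorem exists_avoid {q q' : V × L} (hq : S.IsCls q) (hne : S.lab1 q ≠ S.lab1 q') :
    ∃ g, S.Mem g q ∧ S.lab g ∉ S.lab1 q' := by
  obtain ⟨v', h1, h2, h3, h4⟩ := S.isCls_top hq
  by_contra hcon
  push Not at hcon
  have m1 := hcon q.1 (S.top_mem hq)
  have m2 := hcon v' ⟨v', h1, h2, Or.inl rfl⟩
  apply hne
  have hnd := S.lab1_not_diag hq
  rw [h4] at m2
  exact ((Sym2.mem_and_mem_iff hnd).mp ⟨m1, m2⟩).symm

/-- In a class there is a vertex whose label avoids a given label. -/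
theorem exists_avoid' {q : V × L} (hq : S.IsCls q) (c : L) :
    ∃ g, S.Mem g q ∧ S.lab g ≠ c := by
  obtain ⟨v', h1, h2, h3, h4⟩ := S.isCls_top hq
  have hnd := S.lab1_not_diag hq
  by_cases h : S.lab q.1 = c
  · refine ⟨v', ⟨v', h1, h2, Or.inl rfl⟩, ?_⟩
    rw [h4, ← h]
    exact hnd.symm
  · exact ⟨q.1, S.top_mem hq, h⟩

/-- the derived sign is well defined -/
theorem sg_well {q q' : V × L} (hne : S.lab1 q ≠ S.lab1 q') {u v u' v' : V}
    (hu : S.Mem u q) (hv : S.Mem v q') (huv : S.lab u ≠ S.lab v)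
    (hu' : S.Mem u' q) (hv' : S.Mem v' q') (huv' : S.lab u' ≠ S.lab v') :
    S.sg u v ↔ S.sg u' v' := by
  obtain ⟨g, hg, hg'⟩ := S.exists_avoid hu.isCls hne
  obtain ⟨d, hd, hd'⟩ := S.exists_avoid hv.isCls hne.symm
  have key : ∀ u v, S.Mem u q → S.Mem v q' → S.lab u ≠ S.lab v → (S.sg u v ↔ S.sg g d) := by
    intro u v hu hv huv
    by_cases h : S.lab u ∈ S.lab1 q'
    · have h2 : S.lab v ∉ S.lab1 q := by
        intro h3
        apply hne
        have e1 := (Sym2.mem_and_mem_iff huv).mp ⟨h, S.mem_lab hv⟩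
        have e2 := (Sym2.mem_and_mem_iff huv).mp ⟨S.mem_lab hu, h3⟩
        rw [e1, e2]
      exact (S.sg_const hu hg h2).trans (S.sg_const' hv hd hg')
    · exact (S.sg_const' hv hd h).trans (S.sg_const hu hg hd')
  exact (key u v hu hv huv).trans (key u' v' hu' hv' huv').symm

end Sys

end Pool.Agent.Helper47.Span
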