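import Mathlib
import Pool.Agent.Lib.MP_da225d_gt.Helper47Exact

set_option autoImplicit false

namespace Pool.Agent.Helper47.Span

open Set

namespace Sys

variable {V L : Type} (S : Sys V L)

/-- the set of classes -/
abbrev V1 : Type := {q : V × L // S.IsCls q}

variable (v₀ : V) (hv₀ : v₀ ≠ S.r) (hp₀ : S.par v₀ = S.r)

/-- the root class -/
noncomputable def r1 : S.V1 := ⟨S.cls v₀, v₀, hv₀, rfl⟩

include hp₀ in
theorem r1_val : (S.r1 v₀ hv₀).1 = (S.r, S.lab v₀) := S.cls_root_child hv₀ hp₀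

open Classical in
/-- parent of a class -/
noncomputable def par1 (q : S.V1) : S.V1 :=
  if h : q.1.1 = S.r then S.r1 v₀ hv₀ else ⟨S.cls q.1.1, q.1.1, h, rfl⟩

open Classical in
/-- depth of a class -/
noncomputable def dep1 (q : S.V1) : ℕ :=
  if q.1.1 = S.r then (if q = S.r1 v₀ hv₀ then 0 else 1) else S.dep q.1.1 + 1

theorem par1_of_eq {q : S.V1} (h : q.1.1 = S.r) : S.par1 v₀ hv₀ q = S.r1 v₀ hv₀ := by
  rw [par1, dif_pos h]

theorem par1_of_ne {q : S.V1} (h : q.1.1 ≠ S.r) : (S.par1 v₀ hv₀ q).1 = S.cls q.1.1 := by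
  rw [par1, dif_neg h]

include hp₀ in
theorem top_mem_par1 (q : S.V1) : S.Mem q.1.1 (S.par1 v₀ hv₀ q).1 := by
  by_cases h : q.1.1 = S.r
  · rw [S.par1_of_eq v₀ hv₀ h, h]
    exact ⟨v₀, hv₀, rfl, Or.inr hp₀.symm⟩
  · rw [S.par1_of_ne v₀ hv₀ h]
    exact ⟨q.1.1, h, rfl, Or.inl rfl⟩

include hp₀ in
theorem dep1_lt (q : S.V1) (hq : q ≠ S.r1 v₀ hv₀) :
    S.dep1 v₀ hv₀ (S.par1 v₀ hv₀ q) < S.dep1 v₀ hv₀ q := by
  by_cases h : q.1.1 = S.r
  · rw [S.par1_of_eq v₀ hv₀ h]
    have h1 : (S.r1 v₀ hv₀).1.1 = S.r := by rw [S.r1_val v₀ hv₀ hp₀]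
    rw [dep1, if_pos h1, if_pos rfl, dep1, if_pos h, if_neg hq]
    exact Nat.zero_lt_one
  · have h1 : S.dep1 v₀ hv₀ q = S.dep q.1.1 + 1 := by rw [dep1, if_neg h]
    have h2 := S.par1_of_ne v₀ hv₀ h
    obtain ⟨v', -, -, -, -, h7, -⟩ := S.cls_top q.1.1 h
    rw [h1, dep1, h2]
    split_ifs <;> omega

include hp₀ in
theorem proper1 (q : S.V1) (hq : q ≠ S.r1 v₀ hv₀) :
    S.lab1 q.1 ≠ S.lab1 (S.par1 v₀ hv₀ q).1 := by
  by_cases h : q.1.1 = S.r
  · rw [S.par1_of_eq v₀ hv₀ h, S.r1_val v₀ hv₀ hp₀]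
    intro he
    apply hq
    apply Subtype.ext
    rw [S.r1_val v₀ hv₀ hp₀]
    unfold lab1 at he
    rw [h] at he
    have h2 := Sym2.congr_right.mp he
    exact Prod.ext h h2
  · rw [S.par1_of_ne v₀ hv₀ h, S.lab1_cls _ h]
    intro he
    unfold lab1 at he
    exact S.isCls_ne q.2 h (Sym2.congr_right.mp he)

/-- the derived sign -/
def sg1 (q q' : S.V1) : Prop :=
  ∃ u v, S.Mem u q.1 ∧ S.Mem v q'.1 ∧ S.lab u ≠ S.lab v ∧ S.sg u v

theorem sg1_iff {q q' : S.V1} (hne : S.lab1 q.1 ≠ S.lab1 q'.1) {u v : V}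
    (hu : S.Mem u q.1) (hv : S.Mem v q'.1) (huv : S.lab u ≠ S.lab v) :
    S.sg1 q q' ↔ S.sg u v := by
  constructor
  · rintro ⟨u', v', hu', hv', huv', hs⟩
    exact (S.sg_well hne hu hv huv hu' hv' huv').mpr hs
  · intro hs
    exact ⟨u, v, hu, hv, huv, hs⟩

/-- the derived system -/
noncomputable def derive (hp₀ : S.par v₀ = S.r) : Sys S.V1 (Sym2 L) where
  r := S.r1 v₀ hv₀
  par := S.par1 v₀ hv₀
  dep := S.dep1 v₀ hv₀
  lab := fun q => S.lab1 q.1
  sg := S.sg1
  dep_lt := S.dep1_lt v₀ hv₀ hp₀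
  proper := S.proper1 v₀ hv₀ hp₀
  anti := by
    intro q q' hne
    obtain ⟨u, hu, hu'⟩ := S.exists_avoid q.2 hne
    have hv := S.top_mem q'.2
    have huv : S.lab u ≠ S.lab q'.1.1 := by
      intro h
      exact hu' (h ▸ S.mem_lab hv)
    rw [S.sg1_iff hne hu hv huv, S.sg1_iff (Ne.symm hne) hv hu huv.symm]
    exact S.anti _ _ huv
  inv := by
    intro q w hq h1 h2
    obtain ⟨v, hv, hv'⟩ := S.exists_avoid' w.2 (S.lab q.1.1)
    rw [S.sg1_iff h1 (S.top_mem q.2) hv hv'.symm,
      S.sg1_iff h2 (S.top_mem_par1 v₀ hv₀ hp₀ q) hv hv'.symm]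

/-- A vertex on top of a nonroot class lies only in this class and its parent. -/
theorem mem_of_top {q q' : S.V1} (hp₀ : S.par v₀ = S.r) (hq : q ≠ S.r1 v₀ hv₀)
    (h : S.Mem q.1.1 q'.1) : q' = q ∨ q' = S.par1 v₀ hv₀ q := by
  obtain ⟨v, hv, hvq, hvt⟩ := h
  obtain ⟨v', hv', -, hvp', hvl'⟩ := S.isCls_top q.2
  by_cases ht : q.1.1 = S.r
  · rw [S.par1_of_eq v₀ hv₀ ht]
    rcases hvt with hvt | hvt
    · exact absurd (hvt.symm.trans ht) hv
    · have hvr : S.par v = S.r := hvt.symm.trans ht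
      rw [S.cls_root_child hv hvr] at hvq
      by_cases h1 : S.lab v = S.lab v'
      · left
        apply Subtype.ext
        rw [← hvq]
        refine Prod.ext ht.symm ?_
        show S.lab v = q.1.2
        rw [h1, hvl']
      · by_cases h2 : S.lab v = S.lab v₀
        · right
          apply Subtype.ext
          rw [← hvq, S.r1_val v₀ hv₀ hp₀, h2]
        · exfalso
          have h3 : S.lab v' ≠ S.lab v₀ := by
            intro h3
            apply hq
            apply Subtype.ext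
            rw [S.r1_val v₀ hv₀ hp₀]
            refine Prod.ext ht ?_
            show q.1.2 = S.lab v₀
            rw [← hvl', h3]
          exact S.no_tripod (c := S.r) (Or.inl ⟨hv, hvr⟩) (Or.inl ⟨hv', hvp'.trans ht⟩)
            (Or.inl ⟨hv₀, hp₀⟩) h1 h2 h3
  · have hpar := S.par1_of_ne v₀ hv₀ ht
    rcases hvt with hvt | hvt
    · right
      apply Subtype.ext
      rw [hpar, hvt, hvq]
    · have hvr : S.par v ≠ S.r := fun h => ht (hvt.trans h)
      by_cases h1 : S.lab v = S.lab (S.par (S.par v))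
      · right
        apply Subtype.ext
        rw [hpar, ← hvq, S.cls_same hv hvr h1, hvt]
      · left
        rw [S.cls_new hv hvr h1] at hvq
        have h2 : S.lab v = S.lab v' := by
          by_contra h2
          have h3 : S.lab v' ≠ S.lab (S.par (S.par v)) := by
            rw [hvl', ← hvt]
            exact S.isCls_ne q.2 ht
          exact S.no_tripod (c := S.par v) (Or.inl ⟨hv, rfl⟩)
            (Or.inl ⟨hv', hvp'.trans hvt⟩) (Or.inr ⟨hvr, rfl⟩) h2 h1 h3
        apply Subtype.ext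
        rw [← hvq]
        refine Prod.ext hvt.symm ?_
        show S.lab v = q.1.2
        rw [h2, hvl']

/-- The three kinds of classes at a vertex. -/
theorem mem_cases {u : V} {q : S.V1} (hp₀ : S.par v₀ = S.r) (h : S.Mem u q.1) :
    (q ≠ S.r1 v₀ hv₀ ∧ q.1.1 = u) ∨ (u ≠ S.r ∧ q.1 = S.cls u) ∨ (u = S.r ∧ q = S.r1 v₀ hv₀) := by
  obtain ⟨v, hv, hvq, rfl | rfl⟩ := h
  · exact Or.inr (Or.inl ⟨hv, hvq.symm⟩)
  · by_cases hr : q = S.r1 v₀ hv₀
    · by_cases hvr : S.par v = S.r
      · exact Or.inr (Or.inr ⟨hvr, hr⟩)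
      · by_cases h1 : S.lab v = S.lab (S.par (S.par v))
        · rw [S.cls_same hv hvr h1] at hvq
          exact Or.inr (Or.inl ⟨hvr, hvq.symm⟩)
        · rw [S.cls_new hv hvr h1, hr, S.r1_val v₀ hv₀ hp₀] at hvq
          exact absurd (congrArg Prod.fst hvq) hvr
    · by_cases hvr : S.par v = S.r
      · left
        refine ⟨hr, ?_⟩
        rw [← hvq, S.cls_root_child hv hvr, hvr]
      · by_cases h1 : S.lab v = S.lab (S.par (S.par v))
        · rw [S.cls_same hv hvr h1] at hvq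
          exact Or.inr (Or.inl ⟨hvr, hvq.symm⟩)
        · left
          refine ⟨hr, ?_⟩
          rw [← hvq, S.cls_new hv hvr h1]

/-- Good functions on the vertices. -/
def Good (F : V → ℝ) : Prop :=
  (∀ u v, F u = F v → S.lab u = S.lab v) ∧
    ∀ v w, v ≠ S.r → ¬ (F v < F w ∧ F w < F (S.par v)) ∧ ¬ (F (S.par v) < F w ∧ F w < F v)

theorem real_edges {a b a' b' z : ℝ}
    (na : ¬ (a' < a ∧ a < b') ∧ ¬ (b' < a ∧ a < a'))
    (nb : ¬ (a' < b ∧ b < b') ∧ ¬ (b' < b ∧ b < a'))
    (na' : ¬ (a < a' ∧ a' < b) ∧ ¬ (b < a' ∧ a' < a))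
    (nb' : ¬ (a < b' ∧ b' < b) ∧ ¬ (b < b' ∧ b' < a))
    (hz : (a < z ∧ z < b) ∨ (b < z ∧ z < a))
    (hz' : (a' < z ∧ z < b') ∨ (b' < z ∧ z < a')) :
    (a = a' ∧ b = b') ∨ (a = b' ∧ b = a') := by
  rcases hz with ⟨h1, h2⟩ | ⟨h1, h2⟩ <;> rcases hz' with ⟨h3, h4⟩ | ⟨h3, h4⟩
  · left
    constructor
    · apply le_antisymm
      · by_contra h
        push Not at h
        exact na.1 ⟨h, by linarith⟩
      · by_contra h
        push Not at h
        exact na'.1 ⟨h, by linarith⟩
    · apply le_antisymm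
      · by_contra h
        push Not at h
        exact nb'.1 ⟨by linarith, h⟩
      · by_contra h
        push Not at h
        exact nb.1 ⟨by linarith, h⟩
  · right
    constructor
    · apply le_antisymm
      · by_contra h
        push Not at h
        exact na.2 ⟨h, by linarith⟩
      · by_contra h
        push Not at h
        exact nb'.1 ⟨h, by linarith⟩
    · apply le_antisymm
      · by_contra h
        push Not at h
        exact na'.1 ⟨by linarith, h⟩
      · by_contra h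
        push Not at h
        exact nb.2 ⟨by linarith, h⟩
  · right
    constructor
    · apply le_antisymm
      · by_contra h
        push Not at h
        exact nb'.2 ⟨by linarith, h⟩
      · by_contra h
        push Not at h
        exact na.1 ⟨by linarith, h⟩
    · apply le_antisymm
      · by_contra h
        push Not at h
        exact nb.1 ⟨h, by linarith⟩
      · by_contra h
        push Not at h
        exact na'.2 ⟨h, by linarith⟩
  · left
    constructor
    · apply le_antisymm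
      · by_contra h
        push Not at h
        exact na'.2 ⟨by linarith, h⟩
      · by_contra h
        push Not at h
        exact na.2 ⟨by linarith, h⟩
    · apply le_antisymm
      · by_contra h
        push Not at h
        exact nb.2 ⟨h, by linarith⟩
      · by_contra h
        push Not at h
        exact nb'.2 ⟨h, by linarith⟩

end Sys

end Pool.Agent.Helper47.Span
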