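import Mathlib
import Pool.Agent.Lib.MP_da225d_gt.Helper47Derive

set_option autoImplicit false

namespace Pool.Agent.Helper47.Span

open Set

namespace Sys

variable {V L : Type} (S : Sys V L) (v₀ : V) (hv₀ : v₀ ≠ S.r) (hp₀ : S.par v₀ = S.r)

include hv₀ in
theorem exists_class (hp₀ : S.par v₀ = S.r) (u : V) : ∃ q : S.V1, S.Mem u q.1 := by
  by_cases h : u = S.r
  · refine ⟨S.r1 v₀ hv₀, v₀, hv₀, rfl, Or.inr ?_⟩
    rw [hp₀, h]
  · exact ⟨⟨S.cls u, u, h, rfl⟩, u, h, rfl, Or.inl rfl⟩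

theorem unique_class (hp₀ : S.par v₀ = S.r) {u : V} {q q' : S.V1} (h : S.Mem u q.1)
    (h' : S.Mem u q'.1) (hs : ¬ ∃ q₀ : S.V1, q₀ ≠ S.r1 v₀ hv₀ ∧ q₀.1.1 = u) : q = q' := by
  rcases S.mem_cases v₀ hv₀ hp₀ h with h1 | ⟨h1, h2⟩ | ⟨h1, h2⟩
  · exact absurd ⟨q, h1⟩ hs
  · rcases S.mem_cases v₀ hv₀ hp₀ h' with h3 | ⟨h3, h4⟩ | ⟨h3, h4⟩
    · exact absurd ⟨q', h3⟩ hs
    · exact Subtype.ext (h2.trans h4.symm)
    · exact absurd h3 h1
  · rcases S.mem_cases v₀ hv₀ hp₀ h' with h3 | ⟨h3, h4⟩ | ⟨h3, h4⟩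
    · exact absurd ⟨q', h3⟩ hs
    · exact absurd h1 h3
    · exact h2.trans h4.symm

/-- Unfolding: a good function on the classes gives a good function on the vertices. -/
theorem unfold_good (hp₀ : S.par v₀ = S.r) (hex : ∃ q : S.V1, q ≠ S.r1 v₀ hv₀) (F₁ : S.V1 → ℝ)
    (hF₁ : (S.derive v₀ hv₀ hp₀).Good F₁) : ∃ F : V → ℝ, S.Good F := by
  classical
  obtain ⟨ha, hb⟩ := hF₁
  have ha : ∀ q q' : S.V1, F₁ q = F₁ q' → S.lab1 q.1 = S.lab1 q'.1 := ha
  have hb : ∀ q q' : S.V1, q ≠ S.r1 v₀ hv₀ →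
      ¬ (F₁ q < F₁ q' ∧ F₁ q' < F₁ (S.par1 v₀ hv₀ q)) ∧
      ¬ (F₁ (S.par1 v₀ hv₀ q) < F₁ q' ∧ F₁ q' < F₁ q) := hb
  have hprop := S.proper1 v₀ hv₀ hp₀
  have hdiff : ∀ q : S.V1, q ≠ S.r1 v₀ hv₀ → F₁ q ≠ F₁ (S.par1 v₀ hv₀ q) := by
    intro q hq h
    exact hprop q hq (ha _ _ h)
  let mid : S.V1 → ℝ := fun q => (F₁ q + F₁ (S.par1 v₀ hv₀ q)) / 2
  have hmid : ∀ q : S.V1, q ≠ S.r1 v₀ hv₀ →
      (F₁ q < mid q ∧ mid q < F₁ (S.par1 v₀ hv₀ q)) ∨
      (F₁ (S.par1 v₀ hv₀ q) < mid q ∧ mid q < F₁ q) := by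
    intro q hq
    have hm : mid q = (F₁ q + F₁ (S.par1 v₀ hv₀ q)) / 2 := rfl
    rcases lt_or_gt_of_ne (hdiff q hq) with h | h
    · left
      constructor <;> linarith
    · right
      constructor <;> linarith
  -- a common point of two edge intervals
  have hedge : ∀ q q' : S.V1, q ≠ S.r1 v₀ hv₀ → q' ≠ S.r1 v₀ hv₀ → ∀ z : ℝ,
      ((F₁ q < z ∧ z < F₁ (S.par1 v₀ hv₀ q)) ∨ (F₁ (S.par1 v₀ hv₀ q) < z ∧ z < F₁ q)) →
      ((F₁ q' < z ∧ z < F₁ (S.par1 v₀ hv₀ q')) ∨ (F₁ (S.par1 v₀ hv₀ q') < z ∧ z < F₁ q')) →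
      (F₁ q = F₁ q' ∧ F₁ (S.par1 v₀ hv₀ q) = F₁ (S.par1 v₀ hv₀ q')) ∨
      (F₁ q = F₁ (S.par1 v₀ hv₀ q') ∧ F₁ (S.par1 v₀ hv₀ q) = F₁ q') := by
    intro q q' hq hq' z hz hz'
    exact real_edges (hb q' q hq') (hb q' _ hq') (hb q q' hq) (hb q _ hq) hz hz'
  -- Lemma N
  have hN : ∀ (q q' : S.V1), q' ≠ S.r1 v₀ hv₀ → (F₁ q' = F₁ q ∨ F₁ (S.par1 v₀ hv₀ q') = F₁ q) →
      ∀ z : ℝ, ((F₁ q < z ∧ z < mid q') ∨ (mid q' < z ∧ z < F₁ q)) →
      (∀ q'' : S.V1, z ≠ F₁ q'') ∧ (∀ q'' : S.V1, q'' ≠ S.r1 v₀ hv₀ → z ≠ mid q'') := by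
    intro q q' hq' hend z hz
    have hzin : (F₁ q' < z ∧ z < F₁ (S.par1 v₀ hv₀ q')) ∨
        (F₁ (S.par1 v₀ hv₀ q') < z ∧ z < F₁ q') := by
      have h1 := hmid q' hq'
      rcases hend with he | he <;> rcases hz with ⟨z1, z2⟩ | ⟨z1, z2⟩ <;>
        rcases h1 with ⟨m1, m2⟩ | ⟨m1, m2⟩ <;>
        first
          | exact Or.inl ⟨by linarith, by linarith⟩
          | exact Or.inr ⟨by linarith, by linarith⟩
          | (exfalso; linarith)
    have hzne : z ≠ mid q' := by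
      rcases hz with ⟨z1, z2⟩ | ⟨z1, z2⟩
      · exact z2.ne
      · exact z1.ne'
    refine ⟨?_, ?_⟩
    · intro q'' he
      have := hb q' q'' hq'
      rw [← he] at this
      rcases hzin with h | h
      · exact this.1 h
      · exact this.2 h
    · intro q'' hq'' he
      have h2 := hmid q'' hq''
      rw [← he] at h2
      have h3 := hedge q' q'' hq' hq'' z hzin h2
      apply hzne
      rw [he]
      show (F₁ q'' + F₁ (S.par1 v₀ hv₀ q'')) / 2 = (F₁ q' + F₁ (S.par1 v₀ hv₀ q')) / 2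
      rcases h3 with ⟨e1, e2⟩ | ⟨e1, e2⟩
      · rw [e1, e2]
      · rw [e1, e2, add_comm]
  -- the top of a class is in both
  have htop1 : ∀ q : S.V1, S.lab q.1.1 ∈ S.lab1 q.1 := fun q => S.mem_lab (S.top_mem q.2)
  have htop2 : ∀ q : S.V1, S.lab q.1.1 ∈ S.lab1 (S.par1 v₀ hv₀ q).1 := fun q =>
    S.mem_lab (S.top_mem_par1 v₀ hv₀ hp₀ q)
  -- the values
  have hval : ∀ u : V, ∃ x : ℝ, ∀ q : S.V1, S.Mem u q.1 →
      (∃ q' : S.V1, q' ≠ S.r1 v₀ hv₀ ∧ x = mid q' ∧ S.lab q'.1.1 = S.lab u ∧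
        (F₁ q' = F₁ q ∨ F₁ (S.par1 v₀ hv₀ q') = F₁ q)) ∨
      (x = F₁ q ∧ ∀ q' : S.V1, q' ≠ S.r1 v₀ hv₀ →
        (F₁ q' = F₁ q ∨ F₁ (S.par1 v₀ hv₀ q') = F₁ q) → S.lab q'.1.1 ≠ S.lab u) := by
    intro u
    by_cases h : ∃ q₀ : S.V1, q₀ ≠ S.r1 v₀ hv₀ ∧ q₀.1.1 = u
    · obtain ⟨q₀, h0, h1⟩ := h
      refine ⟨mid q₀, fun q hq => Or.inl ⟨q₀, h0, rfl, by rw [h1], ?_⟩⟩
      rw [← h1] at hq
      rcases S.mem_of_top v₀ hv₀ hp₀ h0 hq with rfl | rfl
      · exact Or.inl rfl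
      · exact Or.inr rfl
    · obtain ⟨q₁, hq₁⟩ := S.exists_class v₀ hv₀ hp₀ u
      by_cases h' : ∃ q' : S.V1, q' ≠ S.r1 v₀ hv₀ ∧
          (F₁ q' = F₁ q₁ ∨ F₁ (S.par1 v₀ hv₀ q') = F₁ q₁) ∧ S.lab q'.1.1 = S.lab u
      · obtain ⟨q', h1, h2, h3⟩ := h'
        refine ⟨mid q', fun q hq => Or.inl ⟨q', h1, rfl, h3, ?_⟩⟩
        rw [S.unique_class v₀ hv₀ hp₀ hq hq₁ h]
        exact h2
      · refine ⟨F₁ q₁, fun q hq => Or.inr ?_⟩
        rw [S.unique_class v₀ hv₀ hp₀ hq hq₁ h]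
        refine ⟨rfl, fun q' h1 h2 h3 => h' ⟨q', h1, h2, h3⟩⟩
  choose F hF using hval
  -- each level has a junction
  have hjun : ∀ q : S.V1, ∃ q' : S.V1, q' ≠ S.r1 v₀ hv₀ ∧
      (F₁ q' = F₁ q ∨ F₁ (S.par1 v₀ hv₀ q') = F₁ q) := by
    intro q
    by_cases hq : q = S.r1 v₀ hv₀
    · -- child of the root class: choose a nonroot class of minimal depth
      obtain ⟨q₂, hq₂⟩ := hex
      have key : ∀ n : ℕ, ∀ q₂ : S.V1, S.dep1 v₀ hv₀ q₂ ≤ n → q₂ ≠ S.r1 v₀ hv₀ →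
          ∃ q' : S.V1, q' ≠ S.r1 v₀ hv₀ ∧ S.par1 v₀ hv₀ q' = S.r1 v₀ hv₀ := by
        intro n
        induction n with
        | zero =>
          intro q₂ h1 h2
          have := S.dep1_lt v₀ hv₀ hp₀ q₂ h2
          omega
        | succ n ih =>
          intro q₂ h1 h2
          by_cases h3 : S.par1 v₀ hv₀ q₂ = S.r1 v₀ hv₀
          · exact ⟨q₂, h2, h3⟩
          · refine ih _ ?_ h3
            have := S.dep1_lt v₀ hv₀ hp₀ q₂ h2
            omega
      obtain ⟨q', h1, h2⟩ := key _ q₂ le_rfl hq₂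
      exact ⟨q', h1, Or.inr (by rw [h2, hq])⟩
    · exact ⟨q, hq, Or.inl rfl⟩
  have hjlab : ∀ q q' : S.V1, (F₁ q' = F₁ q ∨ F₁ (S.par1 v₀ hv₀ q') = F₁ q) →
      S.lab q'.1.1 ∈ S.lab1 q.1 := by
    intro q q' h
    rcases h with h | h
    · rw [← ha _ _ h]
      exact htop1 q'
    · rw [← ha _ _ h]
      exact htop2 q'
  refine ⟨F, ?_, ?_⟩
  · -- (a)
    intro u w huw
    obtain ⟨q, hq⟩ := S.exists_class v₀ hv₀ hp₀ u
    obtain ⟨q', hq'⟩ := S.exists_class v₀ hv₀ hp₀ w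
    rcases hF u q hq with ⟨j, j1, j2, j3, j4⟩ | ⟨s1, s2⟩
    · rcases hF w q' hq' with ⟨k, k1, k2, k3, k4⟩ | ⟨t1, t2⟩
      · have hm : mid j = mid k := by rw [← j2, ← k2, huw]
        have h1 := hmid j j1
        have h2 := hmid k k1
        rw [← hm] at h2
        have h3 := hedge j k j1 k1 _ h1 h2
        rw [← j3, ← k3]
        by_contra hne
        apply hprop j j1
        have m1 := htop1 j
        have m2 := htop2 j
        have m3 : S.lab k.1.1 ∈ S.lab1 j.1 := by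
          rcases h3 with ⟨e1, e2⟩ | ⟨e1, e2⟩
          · rw [ha _ _ e1]
            exact htop1 k
          · rw [ha _ _ e1]
            exact htop2 k
        have m4 : S.lab k.1.1 ∈ S.lab1 (S.par1 v₀ hv₀ j).1 := by
          rcases h3 with ⟨e1, e2⟩ | ⟨e1, e2⟩
          · rw [ha _ _ e2]
            exact htop2 k
          · rw [ha _ _ e2]
            exact htop1 k
        rw [(Sym2.mem_and_mem_iff hne).mp ⟨m1, m3⟩, (Sym2.mem_and_mem_iff hne).mp ⟨m2, m4⟩]
      · exfalso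
        have h1 := hmid j j1
        rw [← j2, huw, t1] at h1
        have h2 := hb j q' j1
        rcases h1 with h1 | h1
        · exact h2.1 h1
        · exact h2.2 h1
    · rcases hF w q' hq' with ⟨k, k1, k2, k3, k4⟩ | ⟨t1, t2⟩
      · exfalso
        have h1 := hmid k k1
        rw [← k2, ← huw, s1] at h1
        have h2 := hb k q k1
        rcases h1 with h1 | h1
        · exact h2.1 h1
        · exact h2.2 h1
      · have he : F₁ q = F₁ q' := by rw [← s1, ← t1, huw]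
        have hl := ha _ _ he
        obtain ⟨j, j1, j2⟩ := hjun q
        have n1 := s2 j j1 j2
        have n2 := t2 j j1 (by rwa [he] at j2)
        have m1 := hjlab q j j2
        have m2 := S.mem_lab hq
        have m3 := S.mem_lab hq'
        rw [← hl] at m3
        by_contra hne
        have e1 := (Sym2.mem_and_mem_iff hne).mp ⟨m2, m3⟩
        rw [e1, Sym2.mem_iff] at m1
        rcases m1 with m1 | m1
        · exact n1 m1
        · exact n2 m1
  · -- (b)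
    have key : ∀ (u v w : V) (q : S.V1), S.Mem u q.1 → S.Mem v q.1 → S.lab u ≠ S.lab v →
        ¬ (F u < F w ∧ F w < F v) := by
      rintro u v w q hu hv huv ⟨h1, h2⟩
      obtain ⟨q', hq'⟩ := S.exists_class v₀ hv₀ hp₀ w
      have hw : ∀ q₁ : S.V1, q₁ ≠ S.r1 v₀ hv₀ →
          (F₁ q₁ = F₁ q ∨ F₁ (S.par1 v₀ hv₀ q₁) = F₁ q) →
          ((F₁ q < F w ∧ F w < mid q₁) ∨ (mid q₁ < F w ∧ F w < F₁ q)) → False := by
        intro q₁ hq₁ he hz
        obtain ⟨n1, n2⟩ := hN q q₁ hq₁ he (F w) hz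
        rcases hF w q' hq' with ⟨k, k1, k2, k3, k4⟩ | ⟨t1, t2⟩
        · exact n2 k k1 k2
        · exact n1 q' t1
      rcases lt_trichotomy (F w) (F₁ q) with hlt | heq | hgt
      · rcases hF u q hu with ⟨j, j1, j2, j3, j4⟩ | ⟨s1, s2⟩
        · exact hw j j1 j4 (Or.inr ⟨by rw [← j2]; exact h1, hlt⟩)
        · linarith
      · rcases hF u q hu with ⟨j, j1, j2, j3, j4⟩ | ⟨s1, s2⟩
        · rcases hF v q hv with ⟨k, k1, k2, k3, k4⟩ | ⟨t1, t2⟩
          · rcases hF w q' hq' with ⟨i, i1, i2, i3, i4⟩ | ⟨r1, r2⟩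
            · have h3 := hmid i i1
              rw [← i2, heq] at h3
              have h4 := hb i q i1
              rcases h3 with h3 | h3
              · exact h4.1 h3
              · exact h4.2 h3
            · have he : F₁ q' = F₁ q := by rw [← r1, heq]
              have hl := ha _ _ he
              have m1 := S.mem_lab hq'
              rw [hl] at m1
              have m2 := S.mem_lab hu
              have m3 := S.mem_lab hv
              have e1 := (Sym2.mem_and_mem_iff huv).mp ⟨m2, m3⟩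
              rw [e1, Sym2.mem_iff] at m1
              rcases m1 with m1 | m1
              · exact r2 j j1 (by rw [he]; exact j4) (j3.trans m1.symm)
              · exact r2 k k1 (by rw [he]; exact k4) (k3.trans m1.symm)
          · linarith
        · linarith
      · rcases hF v q hv with ⟨k, k1, k2, k3, k4⟩ | ⟨t1, t2⟩
        · exact hw k k1 k4 (Or.inl ⟨hgt, by rw [← k2]; exact h2⟩)
        · linarith
    intro v w hv
    have m1 : S.Mem v (⟨S.cls v, v, hv, rfl⟩ : S.V1).1 := ⟨v, hv, rfl, Or.inl rfl⟩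
    have m2 : S.Mem (S.par v) (⟨S.cls v, v, hv, rfl⟩ : S.V1).1 := ⟨v, hv, rfl, Or.inr rfl⟩
    exact ⟨key _ _ w _ m1 m2 (S.proper v hv), key _ _ w _ m2 m1 (S.proper v hv).symm⟩

/-- The exact theorem. -/
theorem exists_good : ∀ (n : ℕ) (V L : Type) [Finite V] (S : Sys V L), Nat.card V ≤ n →
    ∃ F : V → ℝ, S.Good F := by
  intro n
  induction n with
  | zero =>
    intro V L _ S hn
    have : Nonempty V := ⟨S.r⟩
    have := Nat.card_pos (α := V)
    omega
  | succ n ih =>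
    intro V L _ S hn
    classical
    by_cases hV : ∃ v, v ≠ S.r
    · obtain ⟨v₁, hv₁⟩ := hV
      have key : ∀ n : ℕ, ∀ v₂ : V, S.dep v₂ ≤ n → v₂ ≠ S.r →
          ∃ v : V, v ≠ S.r ∧ S.par v = S.r := by
        intro n
        induction n with
        | zero =>
          intro v₂ h1 h2
          have := S.dep_lt v₂ h2
          omega
        | succ n ih =>
          intro v₂ h1 h2
          by_cases h3 : S.par v₂ = S.r
          · exact ⟨v₂, h2, h3⟩
          · refine ih _ ?_ h3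
            have := S.dep_lt v₂ h2
            omega
      obtain ⟨v₀, hv₀, hp₀⟩ := key _ v₁ le_rfl hv₁
      by_cases hex : ∃ q : S.V1, q ≠ S.r1 v₀ hv₀
      · -- card of V1
        let φ : {v : V // v ≠ S.r} → S.V1 := fun v => ⟨S.cls v.1, v.1, v.2, rfl⟩
        have hφ : Function.Surjective φ := by
          rintro ⟨q, v, hv, rfl⟩
          exact ⟨⟨v, hv⟩, rfl⟩
        have hfin : Finite S.V1 := Finite.of_surjective φ hφ
        have hcard1 : Nat.card S.V1 ≤ Nat.card {v : V // v ≠ S.r} :=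
          Nat.card_le_card_of_surjective φ hφ
        have hcard2 : Nat.card {v : V // v ≠ S.r} < Nat.card V := by
          have := Fintype.ofFinite V
          rw [Nat.card_eq_fintype_card, Nat.card_eq_fintype_card]
          exact Fintype.card_subtype_lt (x := S.r) (by simp)
        obtain ⟨F₁, hF₁⟩ := ih S.V1 (Sym2 L) (S.derive v₀ hv₀ hp₀) (by omega)
        exact S.unfold_good v₀ hv₀ hp₀ hex F₁ hF₁
      · push Not at hex
        have hlab : ∀ u, S.lab u ∈ s(S.lab S.r, S.lab v₀) := by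
          intro u
          obtain ⟨q, hq⟩ := S.exists_class v₀ hv₀ hp₀ u
          have h1 := S.mem_lab hq
          rw [hex q, S.r1_val v₀ hv₀ hp₀] at h1
          exact h1
        refine ⟨fun u => if S.lab u = S.lab S.r then 0 else 1, ?_, ?_⟩
        · intro u v huv
          have h1 := hlab u
          have h2 := hlab v
          rw [Sym2.mem_iff] at h1 h2
          by_cases hu : S.lab u = S.lab S.r
          · by_cases hv : S.lab v = S.lab S.r
            · rw [hu, hv]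
            · simp [hu, hv] at huv
          · by_cases hv : S.lab v = S.lab S.r
            · simp [hu, hv] at huv
            · rw [h1.resolve_left hu, h2.resolve_left hv]
        · intro v w hv
          dsimp only
          split_ifs <;> norm_num
    · push Not at hV
      refine ⟨fun _ => 0, ?_, ?_⟩
      · intro u v _
        rw [hV u, hV v]
      · intro v w hv
        exact absurd (hV v) hv

end Sys

end Pool.Agent.Helper47.Span
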