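import Mathlib
import Pool.Agent.Lib.MP_da225d_gt.Helper47Cover
import Pool.Agent.Lib.MP_da225d_gt.Helper47Unfold
import Pool.Agent.Lib.MP_da225d_gt.Helper47Sign

set_option autoImplicit false

namespace Pool.Agent.Helper47.Span

open Set

section Contract

variable {V L : Type} (r : V) (par : V → V) (dep : V → ℕ) (lab : V → L)

open Classical in
/-- contraction of the edges whose ends have the same label -/
noncomputable def rep (dep_lt : ∀ v, v ≠ r → dep (par v) < dep v) (v : V) : V :=
  if h : v = r then r else if lab v = lab (par v) then rep dep_lt (par v) else v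
termination_by dep v
decreasing_by exact dep_lt v h

/-- The exact theorem without properness. -/
theorem exists_good' [Finite V] (sg : V → V → Prop)
    (dep_lt : ∀ v, v ≠ r → dep (par v) < dep v)
    (anti : ∀ u v, lab u ≠ lab v → (sg u v ↔ ¬ sg v u))
    (inv : ∀ v w, v ≠ r → lab v ≠ lab w → lab (par v) ≠ lab w → (sg v w ↔ sg (par v) w)) :
    ∃ F : V → ℝ, (∀ u v, F u = F v → lab u = lab v) ∧
      (∀ v, v ≠ r → lab v = lab (par v) → F v = F (par v)) ∧
      (∀ v w, v ≠ r → ¬ (F v < F w ∧ F w < F (par v)) ∧ ¬ (F (par v) < F w ∧ F w < F v)) := by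
  classical
  let R : V → V := rep r par dep lab dep_lt
  have hRr : R r = r := by
    show rep r par dep lab dep_lt r = r
    rw [rep]
    simp
  have hRs : ∀ v, v ≠ r → lab v = lab (par v) → R v = R (par v) := by
    intro v h1 h2
    show rep r par dep lab dep_lt v = rep r par dep lab dep_lt (par v)
    rw [rep, dif_neg h1, if_pos h2]
  have hRn : ∀ v, v ≠ r → lab v ≠ lab (par v) → R v = v := by
    intro v h1 h2
    show rep r par dep lab dep_lt v = v
    rw [rep, dif_neg h1, if_neg h2]
  have hind : ∀ P : V → Prop, P r → (∀ v, v ≠ r → lab v = lab (par v) → P (par v) → P v) →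
      (∀ v, v ≠ r → lab v ≠ lab (par v) → P v) → ∀ v, P v := by
    intro P p1 p2 p3
    have key : ∀ n : ℕ, ∀ v, dep v ≤ n → P v := by
      intro n
      induction n with
      | zero =>
        intro v hv
        by_cases h : v = r
        · rw [h]; exact p1
        · have := dep_lt v h
          omega
      | succ n ih =>
        intro v hv
        by_cases h : v = r
        · rw [h]; exact p1
        · by_cases hl : lab v = lab (par v)
          · refine p2 v h hl (ih _ ?_)
            have := dep_lt v h
            omega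
          · exact p3 v h hl
    exact fun v => key _ v le_rfl
  have hRC : ∀ v, R v = r ∨ lab (R v) ≠ lab (par (R v)) := by
    apply hind
    · left; exact hRr
    · intro v h1 h2 ih
      rw [hRs v h1 h2]
      exact ih
    · intro v h1 h2
      right
      rw [hRn v h1 h2]
      exact h2
  have hRlab : ∀ v, lab (R v) = lab v := by
    apply hind
    · rw [hRr]
    · intro v h1 h2 ih
      rw [hRs v h1 h2, ih, h2]
    · intro v h1 h2
      rw [hRn v h1 h2]
  have hRdep : ∀ v, dep (R v) ≤ dep v := by
    apply hind
    · rw [hRr]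
    · intro v h1 h2 ih
      rw [hRs v h1 h2]
      exact ih.trans (dep_lt v h1).le
    · intro v h1 h2
      rw [hRn v h1 h2]
  have hRsg : ∀ v w, lab v ≠ lab w → (sg v w ↔ sg (R v) w) := by
    intro v w
    revert v
    apply hind
    · intro _
      rw [hRr]
    · intro v h1 h2 ih h3
      rw [hRs v h1 h2]
      rw [← ih (by rw [← h2]; exact h3)]
      exact inv v w h1 h3 (by rw [← h2]; exact h3)
    · intro v h1 h2 _
      rw [hRn v h1 h2]
  let V' : Type := {v : V // v = r ∨ lab v ≠ lab (par v)}
  let S : Sys V' L :=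
    { r := ⟨r, Or.inl rfl⟩
      par := fun v => ⟨R (par v.1), hRC _⟩
      dep := fun v => dep v.1
      lab := fun v => lab v.1
      sg := fun u v => sg u.1 v.1
      dep_lt := by
        intro v hv
        have hv' : v.1 ≠ r := fun h => hv (Subtype.ext h)
        exact lt_of_le_of_lt (hRdep _) (dep_lt v.1 hv')
      proper := by
        intro v hv
        have hv' : v.1 ≠ r := fun h => hv (Subtype.ext h)
        show lab v.1 ≠ lab (R (par v.1))
        rw [hRlab]
        exact v.2.resolve_left hv'
      anti := by
        intro u v h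
        exact anti u.1 v.1 h
      inv := by
        intro v w hv h1 h2
        have hv' : v.1 ≠ r := fun h => hv (Subtype.ext h)
        have h2 : lab (R (par v.1)) ≠ lab w.1 := h2
        rw [hRlab] at h2
        show sg v.1 w.1 ↔ sg (R (par v.1)) w.1
        rw [← hRsg _ _ h2]
        exact inv v.1 w.1 hv' h1 h2 }
  obtain ⟨F, hFa, hFb⟩ := Sys.exists_good (Nat.card V') V' L S le_rfl
  refine ⟨fun v => F ⟨R v, hRC v⟩, ?_, ?_, ?_⟩
  · intro u v huv
    have h1 : lab (R u) = lab (R v) := hFa _ _ huv
    rwa [hRlab, hRlab] at h1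
  · intro v h1 h2
    have : R v = R (par v) := hRs v h1 h2
    simp only [this]
  · intro v w hv
    by_cases h : lab v = lab (par v)
    · have : R v = R (par v) := hRs v hv h
      simp only [this]
      constructor <;> rintro ⟨h1, h2⟩ <;> linarith
    · have h1 : R v = v := hRn v hv h
      have h2 := hFb ⟨R v, hRC v⟩ ⟨R w, hRC w⟩ (by
        intro h3
        have h4 : R v = r := congrArg Subtype.val h3
        rw [h1] at h4
        exact hv h4)
      have h3 : S.par ⟨R v, hRC v⟩ = ⟨R (par v), hRC _⟩ := by
        apply Subtype.ext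
        show R (par (R v)) = R (par v)
        rw [h1]
      rw [h3] at h2
      exact h2

end Contract

theorem sum_pt_mul {V : Type} [Fintype V] (F : V → ℝ) (a b : V) (t : ℝ) :
    ∑ u, pt a b t u * F u = (1 - t) * F a + t * F b := by
  classical
  unfold pt
  simp only [add_mul]
  rw [Finset.sum_add_distrib]
  simp [mul_assoc]

theorem pt_same_t {V : Type} (a : V) (t : ℝ) : pt a a t = pt a a 0 := by
  funext w
  simp only [pt]
  ring

theorem pt_zero {V : Type} (a b : V) : pt a b 0 = pt a a 0 := by
  funext w
  simp only [pt]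
  ring

theorem pt_one {V : Type} (a b : V) : pt a b 1 = pt b b 0 := by
  funext w
  simp only [pt]
  ring

/-- The separation step: a good function on the vertices separates the points which differ at
the lower level. -/
theorem separate {V L : Type} [Fintype V] {G : SimpleGraph V} {r : V} {par : V → V} {dep : V → ℕ}
    (hdep : ∀ v, v ≠ r → dep (par v) < dep v)
    (hadj : ∀ u v, G.Adj u v → (u ≠ r ∧ par u = v) ∨ (v ≠ r ∧ par v = u))
    (lab : V → L) (F : V → ℝ) (hFa : ∀ u v, F u = F v → lab u = lab v)
    (hFb : ∀ v w, v ≠ r → ¬ (F v < F w ∧ F w < F (par v)) ∧ ¬ (F (par v) < F w ∧ F w < F v))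
    {p q : V → ℝ} (hp : p ∈ realization G) (hq : q ∈ realization G)
    (hpq : ∑ u, p u * F u = ∑ u, q u * F u) : push lab p = push lab q := by
  classical
  let VT : (V → ℝ) → Prop := fun p => ∃ u, ∑ v, p v * F v = F u ∧
    push lab p = pt (lab u) (lab u) 0
  let ET : (V → ℝ) → Prop := fun p => ∃ u t, u ≠ r ∧ 0 < t ∧ t < 1 ∧ F u ≠ F (par u) ∧
    ∑ v, p v * F v = (1 - t) * F u + t * F (par u) ∧ push lab p = pt (lab u) (lab (par u)) t
  have hcase : ∀ p ∈ realization G, VT p ∨ ET p := by
    intro p hp
    rcases structure_pt hdep hadj hp with ⟨u, rfl⟩ | ⟨u, t, hu, h0, h1, hA, rfl⟩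
    · left
      refine ⟨u, ?_, ?_⟩
      · rw [sum_pt_mul]
        ring
      · rw [push_pt]
    · by_cases hF : F u = F (par u)
      · left
        refine ⟨u, ?_, ?_⟩
        · rw [sum_pt_mul, ← hF]
          ring
        · rw [push_pt, ← hFa _ _ hF, pt_same_t]
      · right
        exact ⟨u, t, hu, h0, h1, hF, sum_pt_mul _ _ _ _, push_pt _ _ _ _⟩
  have hbetween : ∀ (u : V) (t : ℝ), 0 < t → t < 1 → F u ≠ F (par u) →
      (F u < (1 - t) * F u + t * F (par u) ∧ (1 - t) * F u + t * F (par u) < F (par u)) ∨
      (F (par u) < (1 - t) * F u + t * F (par u) ∧ (1 - t) * F u + t * F (par u) < F u) := by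
    intro u t h0 h1 hne
    rcases lt_or_gt_of_ne hne with h | h
    · left
      constructor <;> nlinarith
    · right
      constructor <;> nlinarith
  have hVE : ∀ p q : V → ℝ, VT p → ET q → ∑ u, p u * F u = ∑ u, q u * F u → False := by
    rintro p q ⟨u, h1, -⟩ ⟨v, t, hv, h0, h2, h3, h4, -⟩ he
    have h5 := hbetween v t h0 h2 h3
    rw [← h4, ← he, h1] at h5
    have h6 := hFb v u hv
    rcases h5 with h5 | h5
    · exact h6.1 h5
    · exact h6.2 h5
  rcases hcase p hp with hVp | hEp
  · rcases hcase q hq with hVq | hEq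
    · obtain ⟨u, h1, h2⟩ := hVp
      obtain ⟨v, h3, h4⟩ := hVq
      rw [h2, h4, hFa u v (by rw [← h1, ← h3, hpq])]
    · exact (hVE p q hVp hEq hpq).elim
  · rcases hcase q hq with hVq | hEq
    · exact (hVE q p hVq hEp hpq.symm).elim
    · obtain ⟨u, s, hu, hs0, hs1, hFu, hsu, hpu⟩ := hEp
      obtain ⟨v, t, hv, ht0, ht1, hFv, htv, hpv⟩ := hEq
      have hz := hbetween u s hs0 hs1 hFu
      have hz' := hbetween v t ht0 ht1 hFv
      have he : (1 - s) * F u + s * F (par u) = (1 - t) * F v + t * F (par v) := by
        rw [← hsu, ← htv, hpq]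
      rw [← he] at hz'
      rcases Sys.real_edges (hFb v u hv) (hFb v (par u) hv) (hFb u v hu) (hFb u (par v) hu)
        hz hz' with ⟨e1, e2⟩ | ⟨e1, e2⟩
      · rw [← e1, ← e2] at he
        have hst : s = t := by
          have : (s - t) * (F (par u) - F u) = 0 := by linarith
          rcases mul_eq_zero.mp this with h | h
          · linarith
          · exact absurd (by linarith) hFu
        rw [hpu, hpv, hFa _ _ e1, hFa _ _ e2, hst]
      · rw [← e1, ← e2] at he
        have hst : t = 1 - s := by
          have : (1 - s - t) * (F (par u) - F u) = 0 := by linarith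
          rcases mul_eq_zero.mp this with h | h
          · linarith
          · exact absurd (by linarith) hFu
        rw [hpu, hpv, pt_swap (lab u), hFa _ _ e1, hFa _ _ e2, hst]

end Pool.Agent.Helper47.Span
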