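import Mathlib
import Pool.Agent.Lib.MP_da225d_gt.Helper47Main

set_option autoImplicit false

namespace Pool.Agent.Helper47.Span

open Set

variable {V : ℕ → Type} [∀ n, Fintype (V n)] {G : ∀ n, SimpleGraph (V n)}
  {φ : ∀ n, V (n + 1) → V n}

theorem rootCov_of_limit {X : Type*} [MetricSpace X] [CompactSpace X]
    (hG : ∀ n, (G n).IsTree) (hφ : ∀ n, Function.Surjective (φ n))
    (hadj : ∀ n a b, (G (n + 1)).Adj a b → φ n a = φ n b ∨ (G n).Adj (φ n a) (φ n b))
    (e : X ≃ₜ simplicialLimit V G φ) : RootCov X := by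
  intro ε hε
  obtain ⟨m, τ, hτ, h⟩ := exists_level e (ε / 2) (by linarith)
  have := cover_of_map (hG m) (fun x => (e x).1 m)
    ((continuous_apply m).comp (continuous_subtype_val.comp e.continuous))
    (fun x => ((e x).2 m).1)
    (by
      intro u v huv t h0 h1
      obtain ⟨x, hx, hxm⟩ := exists_limit_pt hG hφ hadj m u v huv t h0 h1
      refine ⟨e.symm ⟨x, hx⟩, ?_⟩
      show (e (e.symm ⟨x, hx⟩)).1 m = _
      rw [e.apply_symm_apply]
      exact hxm)
    τ (ε / 2) hτ h
  have h2 : 2 * (ε / 2) = ε := by ring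
  rw [h2] at this
  exact this

/-- Uncountably many disjoint planar copies of a simplicial limit of trees force it to be
arc-like. -/
theorem arcLike_of_copies {X : Type*} [MetricSpace X] [CompactSpace X] [Nonempty X]
    (hG : ∀ n, (G n).IsTree) (hφ : ∀ n, Function.Surjective (φ n))
    (hadj : ∀ n a b, (G (n + 1)).Adj a b → φ n a = φ n b ∨ (G n).Adj (φ n a) (φ n b))
    (e : X ≃ₜ simplicialLimit V G φ) (𝓕 : Set C(X, ℂ)) (h𝓕 : ¬ 𝓕.Countable)
    (hinj : ∀ f ∈ 𝓕, Function.Injective f)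
    (hdis : ∀ f ∈ 𝓕, ∀ g ∈ 𝓕, g ≠ f → ∀ x y, f x ≠ g y) (ε : ℝ) (hε : 0 < ε) :
    ∃ g : X → ℝ, Continuous g ∧ ∀ x y, g x = g y → dist x y < ε := by
  classical
  obtain ⟨n, τ₀, hτ₀, hn⟩ := exists_level e ε hε
  have hX : RootCov X := rootCov_of_limit hG hφ hadj e
  obtain ⟨f, hf, hclose⟩ := exists_condensation 𝓕 h𝓕
  have hcoord : ∀ m, ∀ v : V m, Continuous fun x : X => (e x).1 m v := fun m v =>
    (continuous_apply v).comp ((continuous_apply m).comp
      (continuous_subtype_val.comp e.continuous))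
  -- the far pairs
  let K : Set (X × X) := {p | ∀ v, (e p.1).1 n v * (e p.2).1 n v = 0}
  have hKc : IsCompact K := by
    apply IsClosed.isCompact
    have : K = ⋂ v, {p : X × X | (e p.1).1 n v * (e p.2).1 n v = 0} := by
      ext p
      simp [K]
    rw [this]
    apply isClosed_iInter
    intro v
    exact isClosed_eq (((hcoord n v).comp continuous_fst).mul ((hcoord n v).comp continuous_snd))
      continuous_const
  have hKne : ∀ p ∈ K, p.1 ≠ p.2 := by
    rintro ⟨x, y⟩ hp hxy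
    have hxy : x = y := hxy
    subst hxy
    have h1 : ∀ v, (e x).1 n v = 0 := by
      intro v
      have h2 : (e x).1 n v * (e x).1 n v = 0 := hp v
      exact mul_self_eq_zero.mp h2
    have h2 := ((e x).2 n).1.2.1
    simp [h1] at h2
  have hδ : ∃ δ₀ : ℝ, 0 < δ₀ ∧ ∀ p ∈ K, δ₀ ≤ ‖f p.1 - f p.2‖ := by
    rcases K.eq_empty_or_nonempty with hE | hE
    · refine ⟨1, one_pos, ?_⟩
      rw [hE]
      simp
    · obtain ⟨p₀, hp₀, hmin⟩ := hKc.exists_isMinOn hE
        (f := fun p : X × X => ‖f p.1 - f p.2‖) (by fun_prop)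
      refine ⟨‖f p₀.1 - f p₀.2‖, ?_, fun p hp => hmin hp⟩
      rw [norm_pos_iff, sub_ne_zero]
      intro h
      exact hKne p₀ hp₀ (hinj f hf h)
  obtain ⟨δ₀, hδ₀, hδK⟩ := hδ
  obtain ⟨h, hh, hne, hdist⟩ := hclose (δ₀ / 8) (by linarith)
  obtain ⟨S, hS, hSa, hS0⟩ := exists_sign hX f h f.continuous h.continuous
    (hdis f hf h hh hne) (δ₀ / 8) (fun x => by
      rw [← dist_eq_norm]
      exact (ContinuousMap.dist_apply_le_dist x).trans hdist.le)
  have hSK : ∀ p ∈ K, S p.1 p.2 ≠ 0 := by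
    intro p hp
    apply hS0
    have := hδK p hp
    linarith
  have hg : ∃ g₀ : ℝ, 0 < g₀ ∧ ∀ p ∈ K, g₀ ≤ |S p.1 p.2| := by
    rcases K.eq_empty_or_nonempty with hE | hE
    · refine ⟨1, one_pos, ?_⟩
      rw [hE]
      simp
    · obtain ⟨p₀, hp₀, hmin⟩ := hKc.exists_isMinOn hE
        (f := fun p : X × X => |S p.1 p.2|) hS.abs.continuousOn
      exact ⟨|S p₀.1 p₀.2|, abs_pos.mpr (hSK p₀ hp₀), fun p hp => hmin hp⟩
  obtain ⟨g₀, hg₀, hgK⟩ := hg
  have huc : UniformContinuous (fun p : X × X => S p.1 p.2) :=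
    CompactSpace.uniformContinuous_of_continuous hS
  obtain ⟨η, hη, hηS⟩ := Metric.uniformContinuous_iff.mp huc g₀ hg₀
  have hloc : ∀ x x' y : X, (x, y) ∈ K → (x', y) ∈ K → dist x x' < η →
      (0 < S x y ↔ 0 < S x' y) := by
    have key : ∀ x x' y : X, (x, y) ∈ K → (x', y) ∈ K → dist x x' < η →
        0 < S x y → 0 < S x' y := by
      intro x x' y h1 h2 h3 h4
      have h5 := hgK _ h1
      have h6 := hgK _ h2
      have h7 : dist (S x y) (S x' y) < g₀ := hηS (a := (x, y)) (b := (x', y)) (by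
        rw [Prod.dist_eq]
        simp [h3])
      rw [Real.dist_eq, abs_lt] at h7
      have h5 : g₀ ≤ |S x y| := h5
      have h6 : g₀ ≤ |S x' y| := h6
      rw [abs_of_pos h4] at h5
      linarith [h7.2]
    intro x x' y h1 h2 h3
    exact ⟨key x x' y h1 h2 h3, key x' x y h2 h1 (by rwa [dist_comm])⟩
  -- the higher level
  obtain ⟨k, τ, hτ, hk⟩ := exists_level' e η hη n
  obtain ⟨r⟩ := (hG (n + k)).connected.nonempty
  obtain ⟨par, dep, hpar, hdep, hadjp⟩ := exists_rooting (hG (n + k)) r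
  let lab : V (n + k) → V n := comp V φ n k
  have hlift : ∀ u v : V (n + k), (u = v ∨ (G (n + k)).Adj u v) → ∀ t : ℝ, 0 ≤ t → t ≤ 1 →
      ∃ x : X, (e x).1 (n + k) = pt u v t := by
    intro u v huv t h0 h1
    obtain ⟨x, hx, hxm⟩ := exists_limit_pt hG hφ hadj (n + k) u v huv t h0 h1
    refine ⟨e.symm ⟨x, hx⟩, ?_⟩
    rw [e.apply_symm_apply]
    exact hxm
  have hlow : ∀ x : X, (e x).1 n = push lab ((e x).1 (n + k)) := fun x => limit_push (e x).2 n k
  have hX0 : ∀ u : V (n + k), ∃ x : X, (e x).1 (n + k) = pt u u 0 := fun u =>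
    hlift u u (Or.inl rfl) 0 le_rfl zero_le_one
  choose X0 hX0 using hX0
  have hfar : ∀ (x : X) (a b w : V (n + k)) (t : ℝ), (e x).1 (n + k) = pt a b t →
      lab a ≠ lab w → lab b ≠ lab w → (x, X0 w) ∈ K := by
    intro x a b w t hx h1 h2 v
    show (e x).1 n v * (e (X0 w)).1 n v = 0
    rw [hlow, hlow, hx, hX0, push_pt, push_pt]
    by_cases hv : v = lab w
    · subst hv
      rw [pt_other h1.symm h2.symm, zero_mul]
    · rw [pt_other hv hv, mul_zero]
  let sg : V (n + k) → V (n + k) → Prop := fun u w => 0 < S (X0 u) (X0 w)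
  have hanti : ∀ u v, lab u ≠ lab v → (sg u v ↔ ¬ sg v u) := by
    intro u v huv
    have h1 := hSK _ (hfar (X0 u) u u v 0 (hX0 u) huv huv)
    show 0 < S (X0 u) (X0 v) ↔ ¬ 0 < S (X0 v) (X0 u)
    rw [hSa (X0 u) (X0 v)]
    have h1 : S (X0 u) (X0 v) ≠ 0 := h1
    constructor
    · intro h2
      linarith
    · intro h2
      rcases lt_or_gt_of_ne h1 with h3 | h3
      · exact absurd (by linarith) h2
      · exact h3
  have hinv : ∀ v w, v ≠ r → lab v ≠ lab w → lab (par v) ≠ lab w →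
      (sg v w ↔ sg (par v) w) := by
    intro v w hv h1 h2
    obtain ⟨N₀, hN₀⟩ := exists_nat_gt (2 / τ)
    let N : ℕ := N₀ + 1
    have hNpos : (0 : ℝ) < (N : ℝ) := by
      have : 0 < N := by omega
      exact_mod_cast this
    have hNτ : 2 * (1 / (N : ℝ)) < τ := by
      have h3 : 2 / τ < (N : ℝ) := by
        refine hN₀.trans ?_
        have : (N : ℝ) = (N₀ : ℝ) + 1 := by
          simp [N]
        linarith
      rw [div_lt_iff₀ hτ] at h3
      rw [mul_one_div, div_lt_iff₀ hNpos]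
      linarith
    have hz : ∀ i : ℕ, ∃ x : X, i ≤ N → (e x).1 (n + k) = pt v (par v) ((i : ℝ) / N) := by
      intro i
      by_cases hi : i ≤ N
      · have hir : (i : ℝ) ≤ (N : ℝ) := by exact_mod_cast hi
        obtain ⟨x, hx⟩ := hlift v (par v) (Or.inr (hpar v hv)) ((i : ℝ) / N)
          (div_nonneg (Nat.cast_nonneg i) hNpos.le) (by rw [div_le_one hNpos]; exact hir)
        exact ⟨x, fun _ => hx⟩
      · exact ⟨X0 v, fun h => absurd h hi⟩
    choose z hz using hz
    have hzK : ∀ i, i ≤ N → (z i, X0 w) ∈ K := fun i hi => hfar _ _ _ w _ (hz i hi) h1 h2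
    have hchain : ∀ i, i ≤ N → (0 < S (X0 v) (X0 w) ↔ 0 < S (z i) (X0 w)) := by
      intro i
      induction i with
      | zero =>
        intro hi
        apply hloc _ _ _ (hfar _ v v w 0 (hX0 v) h1 h1) (hzK 0 hi)
        apply hk
        rw [hX0, hz 0 hi]
        simp only [Nat.cast_zero, zero_div]
        rw [pt_zero v (par v)]
        have : l1 (pt v v 0) (pt v v 0) = 0 := by simp [l1]
        rw [this]
        exact hτ
      | succ i ih =>
        intro hi
        rw [ih (by omega)]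
        apply hloc _ _ _ (hzK i (by omega)) (hzK (i + 1) hi)
        apply hk
        rw [hz i (by omega), hz (i + 1) hi]
        refine (l1_pt_le _ _ _ _).trans_lt ?_
        have e1 : (i : ℝ) / N - ((i + 1 : ℕ) : ℝ) / N = - (1 / N) := by
          push_cast
          field_simp
          ring
        rw [e1, abs_neg, abs_of_pos (by positivity)]
        exact hNτ
    have hend : 0 < S (z N) (X0 w) ↔ 0 < S (X0 (par v)) (X0 w) := by
      apply hloc _ _ _ (hzK N le_rfl) (hfar _ (par v) (par v) w 0 (hX0 _) h2 h2)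
      apply hk
      rw [hX0, hz N le_rfl, div_self hNpos.ne', pt_one]
      have : l1 (pt (par v) (par v) 0) (pt (par v) (par v) 0) = 0 := by simp [l1]
      rw [this]
      exact hτ
    exact (hchain N le_rfl).trans hend
  obtain ⟨F, hFa, -, hFb⟩ := exists_good' r par dep lab sg hdep hanti hinv
  refine ⟨fun x => ∑ u, (e x).1 (n + k) u * F u, ?_, ?_⟩
  · apply continuous_finsetSum
    intro u _
    exact (hcoord (n + k) u).mul continuous_const
  · intro x y hxy
    apply hn
    have h1 := separate hdep hadjp lab F hFa hFb ((e x).2 (n + k)).1 ((e y).2 (n + k)).1 hxy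
    rw [hlow, hlow, h1]
    have : l1 (push lab ((e y).1 (n + k))) (push lab ((e y).1 (n + k))) = 0 := by simp [l1]
    rw [this]
    exact hτ₀

/-- Arc-like continua have span zero. -/
theorem span_zero_of_arcLike {X : Type*} [MetricSpace X]
    (h : ∀ ε : ℝ, 0 < ε → ∃ g : X → ℝ, Continuous g ∧ ∀ x y, g x = g y → dist x y < ε)
    (Z : Set (X × X)) (hZc : IsCompact Z) (hZ : IsConnected Z)
    (hproj : Prod.fst '' Z = Prod.snd '' Z) : ∃ x, (x, x) ∈ Z := by
  by_contra hcon
  push Not at hcon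
  obtain ⟨p₀, hp₀, hmin⟩ := hZc.exists_isMinOn hZ.nonempty
    (f := fun p : X × X => dist p.1 p.2) (by fun_prop)
  have hpos : 0 < dist p₀.1 p₀.2 := by
    rw [dist_pos]
    intro h
    apply hcon p₀.1
    have : p₀ = (p₀.1, p₀.1) := Prod.ext rfl h.symm
    rwa [this] at hp₀
  obtain ⟨g, hg, hgd⟩ := h _ hpos
  have hne : ∀ p ∈ Z, g p.1 - g p.2 ≠ 0 := by
    intro p hp h0
    have h1 := hgd p.1 p.2 (sub_eq_zero.mp h0)
    have h2 : dist p₀.1 p₀.2 ≤ dist p.1 p.2 := hmin hp
    linarith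
  have hcont : ContinuousOn (fun p : X × X => g p.1 - g p.2) Z :=
    ((hg.comp continuous_fst).sub (hg.comp continuous_snd)).continuousOn
  -- constant sign
  have hsign : (∀ p ∈ Z, g p.1 < g p.2) ∨ (∀ p ∈ Z, g p.2 < g p.1) := by
    by_contra hcon2
    push Not at hcon2
    obtain ⟨⟨p, hp, h1⟩, ⟨q, hq, h2⟩⟩ := hcon2
    obtain ⟨z, hz, hz0⟩ := hZ.isPreconnected.intermediate_value hq hp hcont
      (show (0 : ℝ) ∈ Set.Icc (g q.1 - g q.2) (g p.1 - g p.2) from
        ⟨by linarith, by linarith⟩)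
    exact hne z hz hz0
  rcases hsign with hs | hs
  · obtain ⟨p, hp, hmax⟩ := hZc.exists_isMaxOn hZ.nonempty
      (f := fun p : X × X => g p.2) (hg.comp continuous_snd).continuousOn
    have : p.2 ∈ Prod.fst '' Z := by
      rw [hproj]
      exact ⟨p, hp, rfl⟩
    obtain ⟨q, hq, hqe⟩ := this
    have h1 := hs q hq
    have h2 : g q.2 ≤ g p.2 := hmax hq
    rw [hqe] at h1
    linarith
  · obtain ⟨p, hp, hmax⟩ := hZc.exists_isMaxOn hZ.nonempty
      (f := fun p : X × X => g p.1) (hg.comp continuous_fst).continuousOn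
    have : p.1 ∈ Prod.snd '' Z := by
      rw [← hproj]
      exact ⟨p, hp, rfl⟩
    obtain ⟨q, hq, hqe⟩ := this
    have h1 := hs q hq
    have h2 : g q.1 ≤ g p.1 := hmax hq
    rw [hqe] at h1
    linarith

end Pool.Agent.Helper47.Span
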