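import Mathlib
import Pool.Agent.Lib.MP_da225d_gt.Helper47Sign

set_option autoImplicit false

namespace Pool.Agent.Helper47.Span

open Complex Set Filter Topology

/-- the plane as the complex numbers -/
noncomputable def planeToC : EuclideanSpace ℝ (Fin 2) ≃ₗᵢ[ℝ] ℂ :=
  Complex.orthonormalBasisOneI.repr.symm

/-- Uncountably many disjoint planar copies give an uncountable family of embeddings. -/
theorem family_of_copies {X : Type*} [TopologicalSpace X] [Nonempty X]
    (S : Set (Set (EuclideanSpace ℝ (Fin 2))))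
    (hS : ¬ S.Countable) (hdis : S.PairwiseDisjoint id) (hh : ∀ A ∈ S, Nonempty (A ≃ₜ X)) :
    ∃ 𝓕 : Set C(X, ℂ), ¬ 𝓕.Countable ∧ (∀ f ∈ 𝓕, Function.Injective f) ∧
      (∀ f ∈ 𝓕, ∀ g ∈ 𝓕, g ≠ f → ∀ x y, f x ≠ g y) := by
  classical
  let φ : ∀ A : S, (A : Set (EuclideanSpace ℝ (Fin 2))) ≃ₜ X := fun A => (hh A.1 A.2).some
  let F : S → C(X, ℂ) := fun A =>
    ⟨fun x => planeToC (((φ A).symm x : (A : Set (EuclideanSpace ℝ (Fin 2)))) :
      EuclideanSpace ℝ (Fin 2)),
      planeToC.continuous.comp (continuous_subtype_val.comp (φ A).symm.continuous)⟩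
  have hFval : ∀ (A : S) x, planeToC.symm (F A x) ∈ (A : Set (EuclideanSpace ℝ (Fin 2))) := by
    intro A x
    show planeToC.symm (planeToC _) ∈ _
    rw [LinearIsometryEquiv.symm_apply_apply]
    exact ((φ A).symm x).2
  have hFdis : ∀ A B : S, A ≠ B → ∀ x y, F A x ≠ F B y := by
    intro A B hAB x y hxy
    have h1 := hFval A x
    have h2 := hFval B y
    rw [← hxy] at h2
    have hd := hdis A.2 B.2 (fun h => hAB (Subtype.ext h))
    exact (Set.disjoint_left.mp hd) h1 h2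
  have hFinj : Function.Injective F := by
    intro A B hAB
    by_contra hne
    obtain ⟨x⟩ := ‹Nonempty X›
    exact hFdis A B hne x x (by rw [hAB])
  refine ⟨Set.range F, ?_, ?_, ?_⟩
  · intro hc
    apply hS
    have h1 : Countable (Set.range F) := hc.to_subtype
    have h2 : Countable S := by
      let e : S → Set.range F := fun A => ⟨F A, A, rfl⟩
      have he : Function.Injective e := by
        intro A B hAB
        exact hFinj (congrArg Subtype.val hAB)
      exact he.countable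
    exact h2.to_set
  · rintro f ⟨A, rfl⟩ x y hxy
    have h1 := planeToC.injective hxy
    exact (φ A).symm.injective (Subtype.ext h1)
  · rintro f ⟨A, rfl⟩ g ⟨B, rfl⟩ hne x y
    apply hFdis
    rintro rfl
    exact hne rfl

/-- Tree covers in the sense of the frozen statement give rooted covers. -/
theorem rootCov_of_treeLike (M : Set (EuclideanSpace ℝ (Fin 2)))
    (htree : ∀ ε : ℝ, 0 < ε → ∃ n : ℕ, ∃ U : Fin n → Set (EuclideanSpace ℝ (Fin 2)),
          (∀ i, IsOpen (U i)) ∧ M ⊆ ⋃ i, U i ∧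
          (∀ i, ∀ x ∈ U i ∩ M, ∀ y ∈ U i ∩ M, dist x y < ε) ∧
          (∀ i j k, i ≠ j → j ≠ k → i ≠ k → U i ∩ U j ∩ U k ∩ M = ∅) ∧
          (SimpleGraph.fromRel (fun i j => (U i ∩ U j ∩ M).Nonempty)).IsTree)
    (hne : M.Nonempty) : RootCov M := by
  intro ε hε
  obtain ⟨n, U, hU, hcov, hsm, -, htr⟩ := htree (ε / 2) (by linarith)
  obtain ⟨m, hm⟩ := hne
  obtain ⟨r, hr⟩ := Set.mem_iUnion.mp (hcov hm)
  obtain ⟨par, dep, hpar, hdep, hadj⟩ := exists_rooting htr r
  have hparmeet : ∀ i, i ≠ r → (U i ∩ U (par i) ∩ M).Nonempty := by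
    intro i hi
    have := hpar i hi
    rw [SimpleGraph.fromRel_adj] at this
    rcases this.2 with h | h
    · exact h
    · rwa [Set.inter_comm (U i)]
  refine ⟨Fin n, r, par, dep, fun i => {x : M | x.1 ∈ U i}, ?_, ?_, ?_, hdep, ?_, ?_, ?_⟩
  · intro i
    exact (hU i).preimage continuous_subtype_val
  · intro x
    obtain ⟨i, hi⟩ := Set.mem_iUnion.mp (hcov x.2)
    exact ⟨i, hi⟩
  · intro i
    by_cases hi : i = r
    · subst hi
      exact ⟨⟨m, hm⟩, hr⟩
    · obtain ⟨y, hy, hyM⟩ := hparmeet i hi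
      exact ⟨⟨y, hyM⟩, hy.1⟩
  · rintro i j hij ⟨x, hxi, hxj⟩
    apply hadj
    rw [SimpleGraph.fromRel_adj]
    exact ⟨hij, Or.inl ⟨x.1, ⟨hxi, hxj⟩, x.2⟩⟩
  · intro i x hx x' hx'
    have := hsm i x.1 ⟨hx, x.2⟩ x'.1 ⟨hx', x'.2⟩
    show dist x.1 x'.1 < ε
    linarith
  · intro i hi x hx x' hx'
    obtain ⟨y, hy, hyM⟩ := hparmeet i hi
    have h1 := hsm i x.1 ⟨hx, x.2⟩ y ⟨hy.1, hyM⟩
    have h2 := hsm (par i) y ⟨hy.2, hyM⟩ x'.1 ⟨hx', x'.2⟩
    show dist x.1 x'.1 < ε
    have h3 := dist_triangle x.1 y x'.1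
    linarith

end Pool.Agent.Helper47.Span
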