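import Mathlib
import Pool.Agent.Lib.MP_da225d_gt.Helper47Plane

/-!
# MP_da225d_gt: uncountably many disjoint planar copies force symmetric span zero

If `M` is a tree-like plane continuum and the plane contains uncountably many pairwise disjoint
copies of `M`, then no pair of points of `M` can be interchanged inside `M × M` without meeting
the diagonal. In particular the symmetric span of `M` is zero.
-/

set_option autoImplicit false

open Pool.Agent.Helper47.Span Set

namespace Pool.Agent.Helper47.SymmetricSpanZero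

theorem symmetric_span_zero (M : Set (EuclideanSpace ℝ (Fin 2))) (hMc : IsCompact M) (hMconn : IsConnected M)
    (htree : ∀ ε : ℝ, 0 < ε → ∃ n : ℕ, ∃ U : Fin n → Set (EuclideanSpace ℝ (Fin 2)),
          (∀ i, IsOpen (U i)) ∧ M ⊆ ⋃ i, U i ∧
          (∀ i, ∀ x ∈ U i ∩ M, ∀ y ∈ U i ∩ M, dist x y < ε) ∧
          (∀ i j k, i ≠ j → j ≠ k → i ≠ k → U i ∩ U j ∩ U k ∩ M = ∅) ∧
          (SimpleGraph.fromRel (fun i j => (U i ∩ U j ∩ M).Nonempty)).IsTree)
    (S : Set (Set (EuclideanSpace ℝ (Fin 2)))) (hS : ¬ S.Countable) (hdis : S.PairwiseDisjoint id)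
    (hcopy : ∀ A ∈ S, Nonempty (A ≃ₜ M))
    (Z : Set (EuclideanSpace ℝ (Fin 2) × EuclideanSpace ℝ (Fin 2)))
    (hZM : Z ⊆ M ×ˢ M) (hZc : IsCompact Z) (hZ : IsConnected Z)
    (a b : EuclideanSpace ℝ (Fin 2)) (hab : (a, b) ∈ Z) (hba : (b, a) ∈ Z) :
    ∃ x, (x, x) ∈ Z := by
  have hcs : CompactSpace M := isCompact_iff_compactSpace.mp hMc
  have hne : Nonempty M := hMconn.nonempty.to_subtype
  have hroot := rootCov_of_treeLike M htree hMconn.nonempty
  obtain ⟨𝓕, h𝓕, hinj, hdisj⟩ := family_of_copies (X := M) S hS hdis hcopy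
  -- the symmetric continuum
  let W : Set (EuclideanSpace ℝ (Fin 2) × EuclideanSpace ℝ (Fin 2)) := Z ∪ Prod.swap '' Z
  have hWc : IsCompact W := hZc.union (hZc.image continuous_swap)
  have hW : IsConnected W := by
    refine IsConnected.union ⟨(a, b), hab, ?_⟩ hZ (hZ.image _ continuous_swap.continuousOn)
    exact ⟨(b, a), hba, rfl⟩
  have hWM : W ⊆ M ×ˢ M := by
    rintro p (hp | ⟨q, hq, rfl⟩)
    · exact hZM hp
    · exact ⟨(hZM hq).2, (hZM hq).1⟩
  have hWs : ∀ p ∈ W, p.swap ∈ W := by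
    rintro p (hp | ⟨q, hq, rfl⟩)
    · exact Or.inr ⟨p, hp, rfl⟩
    · left
      rwa [Prod.swap_swap]
  -- transfer to the subtype
  let j : M × M → EuclideanSpace ℝ (Fin 2) × EuclideanSpace ℝ (Fin 2) :=
    Prod.map Subtype.val Subtype.val
  have hj : Topology.IsEmbedding j :=
    Topology.IsEmbedding.subtypeVal.prodMap Topology.IsEmbedding.subtypeVal
  have hrange : W ⊆ Set.range j := by
    rintro ⟨p, q⟩ hp
    have := hWM hp
    exact ⟨(⟨p, this.1⟩, ⟨q, this.2⟩), rfl⟩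
  have himage : j '' (j ⁻¹' W) = W := by
    rw [Set.image_preimage_eq_inter_range, Set.inter_eq_left.mpr hrange]
  have hW'c : IsCompact (j ⁻¹' W) := by
    rw [hj.isCompact_iff, himage]
    exact hWc
  have hW' : IsConnected (j ⁻¹' W) := by
    refine ⟨?_, ?_⟩
    · obtain ⟨p, hp⟩ := hW.nonempty
      obtain ⟨q, rfl⟩ := hrange hp
      exact ⟨q, hp⟩
    · rw [← hj.isInducing.isPreconnected_image, himage]
      exact hW.isPreconnected
  obtain ⟨p, hp, hpe⟩ := symmetric_meets_diagonal hroot 𝓕 h𝓕 hinj hdisj (j ⁻¹' W) hW'c hW'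
    (fun p hp => hWs _ hp)
  have hpe' : (p.1 : EuclideanSpace ℝ (Fin 2)) = p.2 := congrArg Subtype.val hpe
  rcases hp with hp | ⟨q, hq, hqe⟩
  · refine ⟨p.1, ?_⟩
    have : j p = ((p.1 : EuclideanSpace ℝ (Fin 2)), (p.1 : EuclideanSpace ℝ (Fin 2))) := by
      show ((p.1 : EuclideanSpace ℝ (Fin 2)), (p.2 : EuclideanSpace ℝ (Fin 2))) = _
      rw [hpe']
    rw [← this]
    exact hp
  · refine ⟨p.1, ?_⟩
    have h1 : q = ((p.1 : EuclideanSpace ℝ (Fin 2)), (p.1 : EuclideanSpace ℝ (Fin 2))) := by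
      have h2 : q = (j p).swap := by
        rw [← hqe, Prod.swap_swap]
      rw [h2]
      show ((p.2 : EuclideanSpace ℝ (Fin 2)), (p.1 : EuclideanSpace ℝ (Fin 2))) = _
      rw [hpe']
    rw [← h1]
    exact hq

end Pool.Agent.Helper47.SymmetricSpanZero
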